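import Mathlib

/-!
# The parameters
-/

namespace Pool.Agent.Lib.MP_634427_lc.LD

/-- An integer root of `n`. -/
def root (D n : ℕ) : ℕ := Nat.findGreatest (fun t => t ^ D ≤ n) n

private lemma root_pow_le (D n : ℕ) (hD : 1 ≤ D) : root D n ^ D ≤ n := by
  unfold root
  exact Nat.findGreatest_spec (P := fun t => t ^ D ≤ n) (Nat.zero_le n)
    (by simp [Nat.zero_pow (by omega : 0 < D)])

private lemma le_root (D n T : ℕ) (hD : 1 ≤ D) (h : T ^ D ≤ n) : T ≤ root D n := by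
  unfold root
  refine Nat.le_findGreatest (P := fun t => t ^ D ≤ n) ?_ h
  calc T = T ^ 1 := (pow_one T).symm
    _ ≤ T ^ D := by
        rcases Nat.eq_zero_or_pos T with h0 | h0
        · subst h0; simp
        · exact Nat.pow_le_pow_right h0 hD
    _ ≤ n := h

private lemma lt_root_succ (D n : ℕ) (hD : 1 ≤ D) : n < (root D n + 1) ^ D := by
  by_contra hc
  push Not at hc
  have := le_root D n (root D n + 1) hD hc
  omega

private lemma exists_pow_lt (e : ℕ) : ∃ T : ℕ, ∀ t ≥ T, (t + 2) ^ e < 2 ^ t := by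
  have h := tendsto_pow_const_div_const_pow_of_one_lt e (r := (2 : ℝ)) (by norm_num)
  have h2 := (h.eventually (gt_mem_nhds (show (0 : ℝ) < 1 / 4 by norm_num)))
  obtain ⟨T, hT⟩ := Filter.eventually_atTop.1 h2
  refine ⟨T, fun t ht => ?_⟩
  have h3 := hT (t + 2) (by omega)
  rw [div_lt_iff₀ (by positivity)] at h3
  have h4 : ((t + 2 : ℕ) : ℝ) ^ e < (2 : ℝ) ^ t := by
    calc ((t + 2 : ℕ) : ℝ) ^ e < 1 / 4 * 2 ^ (t + 2) := h3
      _ = 2 ^ t := by rw [pow_add]; ring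
  exact_mod_cast h4

private lemma key1 (t b M R N s1 s : ℕ) (ht : 20 ≤ t) (hR : R = b * t ^ 2 + t)
    (hN : N = (M + 1) * t ^ 2) (hs1 : s1 = M * (2 * t + 1))
    (hs : s = N * (b * (2 * t + 1) + 2) + R * (s1 + 1) + 1) : 2 * s + 2 ≤ N * R := by
  have hR1 : 1 ≤ R := by rw [hR]; omega
  have ht2 : 8 * t + 12 ≤ t ^ 2 := by nlinarith
  -- first half
  have h1 : 4 * (N * (b * (2 * t + 1) + 2)) ≤ N * R := by
    have : 4 * (b * (2 * t + 1) + 2) ≤ R := by
      rw [hR]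
      have := Nat.mul_le_mul_left b ht2
      nlinarith
    calc 4 * (N * (b * (2 * t + 1) + 2)) = N * (4 * (b * (2 * t + 1) + 2)) := by ring
      _ ≤ N * R := Nat.mul_le_mul_left N this
  have h2 : 4 * (R * (s1 + 1)) + 8 ≤ N * R := by
    have h3 : 4 * (s1 + 1) + 8 ≤ N := by
      rw [hs1, hN]
      have := Nat.mul_le_mul_left M ht2
      nlinarith
    calc 4 * (R * (s1 + 1)) + 8 ≤ 4 * (R * (s1 + 1)) + 8 * R := by omega
      _ = (4 * (s1 + 1) + 8) * R := by ring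
      _ ≤ N * R := Nat.mul_le_mul_right R h3
  omega

private lemma key2 (t b M R N s1 s P n : ℕ) (ht : 20 ≤ t) (hP : P = (b + 1) * (M + 1))
    (hPn : P * t ^ 6 ≤ n) (hR : R = b * t ^ 2 + t)
    (hN : N = (M + 1) * t ^ 2) (hs1 : s1 = M * (2 * t + 1))
    (hs : s = N * (b * (2 * t + 1) + 2) + R * (s1 + 1) + 1) :
    (2 * (s + N + R + 2 * (N * R)) + 8 + 2) * t ≤ n ∧
      2 * (s1 + N * (b * (2 * t + 1) + 4)) + 4 + 2 ≤
        2 * (s + N + R + 2 * (N * R)) + 8 + 2 := by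
  have hR1 : 1 ≤ R := by rw [hR]; omega
  have hN1 : 1 ≤ N := by rw [hN]; exact Nat.mul_pos (by omega) (by positivity)
  have hNR1 : R ≤ N * R := Nat.le_mul_of_pos_left R hN1
  have hNR2 : N ≤ N * R := Nat.le_mul_of_pos_right N hR1
  have h1 := key1 t b M R N s1 s ht hR hN hs1 hs
  have hRb : R ≤ (b + 1) * t ^ 2 := by
    rw [hR]; nlinarith
  have hNR : N * R ≤ P * t ^ 4 := by
    calc N * R ≤ N * ((b + 1) * t ^ 2) := Nat.mul_le_mul_left N hRb
      _ = P * t ^ 4 := by rw [hN, hP]; ring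
  constructor
  · calc (2 * (s + N + R + 2 * (N * R)) + 8 + 2) * t ≤ (17 * (N * R)) * t :=
          Nat.mul_le_mul_right t (by omega)
      _ ≤ (17 * (P * t ^ 4)) * t := Nat.mul_le_mul_right t (Nat.mul_le_mul_left 17 hNR)
      _ = 17 * (P * t ^ 5) := by ring
      _ ≤ t * (P * t ^ 5) := Nat.mul_le_mul_right _ (by omega)
      _ = P * t ^ 6 := by ring
      _ ≤ n := hPn
  · have h2 : s1 ≤ R * (s1 + 1) := by nlinarith
    have h3 : N * (b * (2 * t + 1) + 4) = N * (b * (2 * t + 1) + 2) + 2 * N := by ring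
    rw [h3]
    omega

private lemma key3 (k t X n : ℕ) (ht : 2 ≤ t) (hX : X * t ≤ n) (hn : n < (t + 1) ^ (6 * k + 7)) :
    X ^ (12 * k + 13 + 1) ≤ (n + 2) ^ (12 * k + 13) := by
  have h1 : n ≤ t ^ (12 * k + 13 + 1) := by
    calc n ≤ (t + 1) ^ (6 * k + 7) := hn.le
      _ ≤ (t ^ 2) ^ (6 * k + 7) := Nat.pow_le_pow_left (by nlinarith) _
      _ = t ^ (12 * k + 13 + 1) := by rw [← pow_mul]; congr 1; ring
  have h2 : X ^ (12 * k + 13 + 1) * t ^ (12 * k + 13 + 1) ≤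
      n ^ (12 * k + 13) * t ^ (12 * k + 13 + 1) := by
    calc X ^ (12 * k + 13 + 1) * t ^ (12 * k + 13 + 1) = (X * t) ^ (12 * k + 13 + 1) := by
          rw [mul_pow]
      _ ≤ n ^ (12 * k + 13 + 1) := Nat.pow_le_pow_left hX _
      _ = n ^ (12 * k + 13) * n := pow_succ _ _
      _ ≤ n ^ (12 * k + 13) * t ^ (12 * k + 13 + 1) := Nat.mul_le_mul_left _ h1
  have h3 : X ^ (12 * k + 13 + 1) ≤ n ^ (12 * k + 13) :=
    Nat.le_of_mul_le_mul_right h2 (by positivity)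
  exact h3.trans (Nat.pow_le_pow_left (by omega) _)

/-- The inequalities for the parameters. -/
theorem arith (k c cm : ℕ) (β μ : ℕ → ℕ)
    (h : ∀ n, ((β n + 1) * (μ n + 1)) ^ (k + 1) ≤ c * (n + 1) ^ k) :
    ∃ n0, ∀ n ≥ n0, ∀ t b M R N s1 s : ℕ, t = root (6 * k + 7) n → b = β (5 * n + 5) →
      M = μ (5 * n + 5) → R = b * t ^ 2 + t → N = (M + 1) * t ^ 2 → s1 = M * (2 * t + 1) →
      s = N * (b * (2 * t + 1) + 2) + R * (s1 + 1) + 1 →
      1 ≤ t ∧ 1 ≤ R ∧ 2 * s + 2 ≤ N * R ∧ 4 * n + R * (16 * t + 12) + 5 ≤ 5 * n + 5 ∧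
      N * b < 2 ^ t ∧ R < 2 ^ t ∧ (n + 2) ^ cm < 2 ^ t ∧
      (2 * (s + N + R + 2 * (N * R)) + 8 + 2) ^ (12 * k + 13 + 1) ≤ (n + 2) ^ (12 * k + 13) ∧
      (2 * (s1 + N * (b * (2 * t + 1) + 4)) + 4 + 2) ^ (12 * k + 13 + 1) ≤
        (n + 2) ^ (12 * k + 13) := by
  obtain ⟨T1, hT1⟩ := exists_pow_lt (6 * k + 7)
  obtain ⟨T2, hT2⟩ := exists_pow_lt ((6 * k + 7) * cm)
  refine ⟨(T1 + T2 + 20 + c * 11 ^ k) ^ (6 * k + 7), ?_⟩
  intro n hn t b M R N s1 s ht hb hM hR hN hs1 hs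
  have hD : 1 ≤ 6 * k + 7 := by omega
  have htT : T1 + T2 + 20 + c * 11 ^ k ≤ t := by rw [ht]; exact le_root _ n _ hD hn
  have htn : t ^ (6 * k + 7) ≤ n := by rw [ht]; exact root_pow_le _ n hD
  have hnt : n < (t + 1) ^ (6 * k + 7) := by rw [ht]; exact lt_root_succ _ n hD
  clear ht
  have ht20 : 20 ≤ t := by omega
  have htc : c * 11 ^ k ≤ t := by omega
  have hn1 : 1 ≤ n := le_trans (Nat.one_le_pow _ _ (by omega)) htn
  set P := (b + 1) * (M + 1) with hP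
  have hPk : P ^ (k + 1) ≤ c * (11 ^ k * n ^ k) := by
    calc P ^ (k + 1) ≤ c * (5 * n + 5 + 1) ^ k := by
          have := h (5 * n + 5)
          rw [← hb, ← hM] at this
          exact this
      _ ≤ c * (11 * n) ^ k := Nat.mul_le_mul_left c (Nat.pow_le_pow_left (by omega) k)
      _ = c * (11 ^ k * n ^ k) := by rw [mul_pow]
  have hPn : P * t ^ 6 ≤ n := by
    have h1 : (P * t ^ 6) ^ (k + 1) ≤ n ^ (k + 1) := by
      calc (P * t ^ 6) ^ (k + 1) = P ^ (k + 1) * t ^ (6 * k + 6) := by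
            rw [mul_pow, ← pow_mul, show 6 * (k + 1) = 6 * k + 6 by ring]
        _ ≤ c * (11 ^ k * n ^ k) * t ^ (6 * k + 6) := Nat.mul_le_mul_right _ hPk
        _ = (c * 11 ^ k) * (n ^ k * t ^ (6 * k + 6)) := by ring
        _ ≤ t * (n ^ k * t ^ (6 * k + 6)) := Nat.mul_le_mul_right _ htc
        _ = n ^ k * t ^ (6 * k + 7) := by ring
        _ ≤ n ^ k * n := Nat.mul_le_mul_left _ htn
        _ = n ^ (k + 1) := (pow_succ n k).symm
    exact (Nat.pow_le_pow_iff_left (by omega)).1 h1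
  have hn2 : n < 2 ^ t := by
    calc n < (t + 1) ^ (6 * k + 7) := hnt
      _ ≤ (t + 2) ^ (6 * k + 7) := Nat.pow_le_pow_left (by omega) _
      _ < 2 ^ t := hT1 t (by omega)
  have hR1 : 1 ≤ R := by rw [hR]; omega
  have hRb : R ≤ (b + 1) * t ^ 2 := by
    rw [hR]; nlinarith
  have hM1 : 1 ≤ M + 1 := by omega
  obtain ⟨hX, hY⟩ := key2 t b M R N s1 s P n ht20 hP hPn hR hN hs1 hs
  have hX3 := key3 k t _ n (by omega) hX hnt
  refine ⟨by omega, hR1, key1 t b M R N s1 s ht20 hR hN hs1 hs, ?_, ?_, ?_, ?_, hX3, ?_⟩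
  · have h1 : R * (16 * t + 12) ≤ n := by
      calc R * (16 * t + 12) ≤ ((b + 1) * t ^ 2) * (t * t) :=
            Nat.mul_le_mul hRb (by nlinarith)
        _ = ((b + 1) * 1) * t ^ 4 := by ring
        _ ≤ ((b + 1) * (M + 1)) * t ^ 6 :=
            Nat.mul_le_mul (Nat.mul_le_mul_left _ hM1)
              (Nat.pow_le_pow_right (by omega) (by norm_num))
        _ ≤ n := hPn
    omega
  · refine lt_of_le_of_lt ?_ hn2
    calc N * b = (b * (M + 1)) * t ^ 2 := by rw [hN]; ring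
      _ ≤ ((b + 1) * (M + 1)) * t ^ 6 :=
          Nat.mul_le_mul (Nat.mul_le_mul_right _ (by omega))
            (Nat.pow_le_pow_right (by omega) (by norm_num))
      _ ≤ n := hPn
  · refine lt_of_le_of_lt ?_ hn2
    calc R ≤ ((b + 1) * 1) * t ^ 2 := by rw [mul_one]; exact hRb
      _ ≤ ((b + 1) * (M + 1)) * t ^ 6 :=
          Nat.mul_le_mul (Nat.mul_le_mul_left _ hM1)
            (Nat.pow_le_pow_right (by omega) (by norm_num))
      _ ≤ n := hPn
  · calc (n + 2) ^ cm ≤ ((t + 2) ^ (6 * k + 7)) ^ cm := by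
          apply Nat.pow_le_pow_left
          have h1 : (t + 1) ^ (6 * k + 7) < (t + 2) ^ (6 * k + 7) :=
            Nat.pow_lt_pow_left (by omega) (by omega)
          omega
      _ = (t + 2) ^ ((6 * k + 7) * cm) := by rw [← pow_mul]
      _ < 2 ^ t := hT2 t (by omega)
  · exact le_trans (Nat.pow_le_pow_left hY _) hX3

end Pool.Agent.Lib.MP_634427_lc.LD
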