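import Pool.Agent.Lib.MP_634427_lc.LD.Defs

/-!
# Numerals, indices, membership
-/

namespace Pool.Agent.Lib.MP_634427_lc.LD

open Pool.Agent.Lib.MP_634427_lc

/-- The value of a numeral. -/
private def bval : Word → ℕ
  | [] => 0
  | b :: l => b.toNat + 2 * bval l

private lemma bval_inc : ∀ l : Word, bval (inc l) = bval l + 1
  | [] => rfl
  | false :: l => by simp [inc, bval]; omega
  | true :: l => by simp [inc, bval, bval_inc l]; omega

private lemma bval_bits : ∀ n : ℕ, bval (bits n) = n
  | 0 => rfl
  | n + 1 => by rw [bits, bval_inc, bval_bits n]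

lemma bits_injective : Function.Injective bits := by
  intro m n h
  rw [← bval_bits m, ← bval_bits n, h]

private lemma bits_odd_even (n : ℕ) :
    bits (2 * n + 1) = true :: bits n ∧ bits (2 * n + 2) = false :: bits (n + 1) := by
  induction n with
  | zero => exact ⟨rfl, rfl⟩
  | succ n ih =>
    have h1 : bits (2 * (n + 1) + 1) = true :: bits (n + 1) := by
      change inc (bits (2 * n + 2)) = _
      rw [ih.2]
      rfl
    refine ⟨h1, ?_⟩
    change inc (bits (2 * (n + 1) + 1)) = _
    rw [h1]
    rfl

private lemma length_bits_le_aux (t : ℕ) : ∀ n : ℕ, n < 2 ^ t → (bits n).length ≤ t := by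
  induction t with
  | zero =>
    intro n h
    have h1 : n = 0 := by simpa using h
    subst h1
    exact Nat.le_refl 0
  | succ t ih =>
    intro n h
    rw [pow_succ] at h
    obtain ⟨m, hm⟩ : ∃ m, n = 0 ∨ n = 2 * m + 1 ∨ n = 2 * m + 2 := ⟨(n - 1) / 2, by omega⟩
    rcases hm with rfl | rfl | rfl
    · exact Nat.zero_le _
    · rw [(bits_odd_even m).1, List.length_cons]
      exact Nat.succ_le_succ (ih m (by omega))
    · rw [(bits_odd_even m).2, List.length_cons]
      exact Nat.succ_le_succ (ih (m + 1) (by omega))

lemma length_bits_le {n t : ℕ} (h : n < 2 ^ t) : (bits n).length ≤ t :=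
  length_bits_le_aux t n h

lemma length_bits_le' (n : ℕ) : (bits n).length ≤ n :=
  length_bits_le Nat.lt_two_pow_self

lemma look_bits {u : Word} {p : ℕ} (hp : p < u.length) : look u (bits p) = u.getD p false := by
  rw [Bool.eq_iff_iff]
  constructor
  · intro h
    rw [look, List.any_eq_true] at h
    obtain ⟨q, -, hq⟩ := h
    rw [Bool.and_eq_true, decide_eq_true_iff] at hq
    rw [← bits_injective hq.1]
    exact hq.2
  · intro h
    rw [look, List.any_eq_true]
    exact ⟨p, List.mem_range.2 hp, by rw [Bool.and_eq_true, decide_eq_true_iff]; exact ⟨rfl, h⟩⟩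

lemma mem1_iff {z : List Word} {v : Word} : mem1 z v = true ↔ v ∈ z := by
  rw [mem1, List.any_eq_true]
  constructor
  · rintro ⟨w, hw, h⟩
    rw [decide_eq_true_iff] at h
    exact h ▸ hw
  · intro h
    exact ⟨v, h, by rw [decide_eq_true_iff]⟩

private lemma ix_cons_self (w : Word) (l : List Word) : ix w (w :: l) = 0 := by
  simp [ix]

private lemma ix_cons_ne {a w : Word} (h : a ≠ w) (l : List Word) : ix w (a :: l) = ix w l + 1 := by
  simp [ix, h]

lemma ix_lt {l : List Word} {w : Word} (hw : w ∈ l) : ix w l < l.length := by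
  induction l with
  | nil => simp at hw
  | cons a l ih =>
    by_cases h : a = w
    · subst h
      rw [ix_cons_self]
      exact Nat.succ_pos _
    · rw [ix_cons_ne h, List.length_cons]
      rcases List.mem_cons.1 hw with h1 | h1
      · exact absurd h1.symm h
      · exact Nat.succ_lt_succ (ih h1)

lemma ix_le (l : List Word) (w : Word) : ix w l ≤ l.length := by
  induction l with
  | nil => exact Nat.zero_le _
  | cons a l ih =>
    by_cases h : a = w
    · subst h
      rw [ix_cons_self]
      exact Nat.zero_le _
    · rw [ix_cons_ne h, List.length_cons]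
      exact Nat.succ_le_succ ih

lemma ix_inj {l : List Word} {v w : Word} (hv : v ∈ l) (hw : w ∈ l) (h : ix v l = ix w l) :
    v = w := by
  induction l with
  | nil => simp at hv
  | cons a l ih =>
    by_cases h1 : a = v
    · by_cases h2 : a = w
      · rw [← h1, ← h2]
      · rw [← h1, ix_cons_self, ix_cons_ne h2] at h
        omega
    · by_cases h2 : a = w
      · rw [← h2, ix_cons_self, ix_cons_ne h1] at h
        omega
      · rw [ix_cons_ne h1, ix_cons_ne h2] at h
        refine ih ?_ ?_ (by omega)
        · exact (List.mem_cons.1 hv).resolve_left (fun e => h1 e.symm)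
        · exact (List.mem_cons.1 hw).resolve_left (fun e => h2 e.symm)

end Pool.Agent.Lib.MP_634427_lc.LD
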