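import Pool.Agent.Lib.MP_634427_lc.LD.Bits

/-!
# Numerals in polynomial time
-/

namespace Pool.Agent.Lib.MP_634427_lc.PT

variable {γ : Type} [Enc γ]

private lemma incLD_eq (l : Word) : LD.inc l = lrec [true]
    (fun (a : Bool) (t : List Bool) (r : Word) => bif a then false :: r else true :: t) l := by
  induction l with
  | nil => rfl
  | cons a l ih => cases a with
    | false => rfl
    | true =>
      show false :: LD.inc l = _
      rw [ih]
      rfl

private lemma sz_incLD (l : Word) : sz (LD.inc l) ≤ sz l + 2 := by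
  induction l with
  | nil => show sz [true] ≤ _; simp
  | cons a l ih => cases a with
    | false => show sz (true :: l) ≤ _; simp; omega
    | true => show sz (false :: LD.inc l) ≤ _; simp; omega

private lemma incLD {f : γ → Word} (hf : PT f) : PT fun c => LD.inc (f c) := by
  obtain ⟨a, ha⟩ := hf.size_le
  have h := listRec (l := f) (s := fun _ => [true])
    (f := fun (_ : γ) (a : Bool) (t : List Bool) (r : Word) =>
      bif a then false :: r else true :: t) hf (const [true])
    (cond (fst' snd) (cons (const false) (snd' (snd' snd))) (cons (const true) (fst' (snd' snd))))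
    ⟨a + 2, fun c l' hl' => by
      rw [← incLD_eq]
      refine (sz_incLD l').trans ?_
      have h1 := (sz_suffix_le hl').trans (ha c)
      have h2 : 1 ≤ (sz c + 2) ^ a := Nat.one_le_pow _ _ (by omega)
      have h3 : 4 ≤ (sz c + 2) ^ 2 := by nlinarith [Nat.zero_le (sz c)]
      calc sz l' + 2 ≤ (sz c + 2) ^ a * 4 := by omega
        _ ≤ (sz c + 2) ^ a * (sz c + 2) ^ 2 := Nat.mul_le_mul_left _ h3
        _ = (sz c + 2) ^ (a + 2) := by rw [pow_add]⟩
  exact h.of_eq fun c => (incLD_eq (f c)).symm

private lemma bitsLD_eq (n : ℕ) : LD.bits n =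
    Nat.rec (motive := fun _ => Word) [] (fun _ r => LD.inc r) n := by
  induction n with
  | zero => rfl
  | succ n ih => show LD.inc (LD.bits n) = _; rw [ih]

private lemma sz_bitsLD (n : ℕ) : sz (LD.bits n) ≤ 2 * n := by
  induction n with
  | zero => simp [LD.bits]
  | succ n ih =>
    have h := sz_incLD (LD.bits n)
    show sz (LD.inc (LD.bits n)) ≤ _
    omega

lemma bitsLD {f : γ → ℕ} (hf : PT f) : PT fun c => LD.bits (f c) := by
  obtain ⟨a, ha⟩ := hf.size_le
  have h := natRec (n := f) (s := fun _ => ([] : Word)) (f := fun (_ : γ) (_ : ℕ) (r : Word) =>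
      LD.inc r) hf (const []) (incLD (snd' snd))
    ⟨a + 1, fun c i hi => by
      rw [← bitsLD_eq]
      refine (sz_bitsLD i).trans ?_
      have h1 := ha c
      rw [sz_nat] at h1
      calc 2 * i ≤ (sz c + 2) ^ a * (sz c + 2) := by
            rw [mul_comm]
            exact Nat.mul_le_mul (hi.trans h1) (by omega)
        _ = (sz c + 2) ^ (a + 1) := by rw [pow_succ]⟩
  exact h.of_eq fun c => (bitsLD_eq (f c)).symm

lemma ixLD {f : γ → Word} {g : γ → List Word} (hf : PT f) (hg : PT g) :
    PT fun c => LD.ix (f c) (g c) :=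
  foldr_add (f := fun c (a : Word) (r : ℕ) => bif decide (a = f c) then 0 else r + 1) hg
    (const (0 : ℕ)) (cond (eqWord (fst' snd) (hf.comp fst)) (const 0) (succ (snd' snd)))
    ⟨0, fun c a r _ => by
      cases decide (a = f c) <;> simp⟩

lemma lookLD {f g : γ → Word} (hf : PT f) (hg : PT g) : PT fun c => LD.look (f c) (g c) :=
  any (p := fun c (p : ℕ) => decide (LD.bits p = g c) && (f c).getD p false)
    (range (length hf)) (and (eqWord (bitsLD snd) (hg.comp fst))
      (getLD snd (hf.comp fst) (const false)))

lemma mem1LD {f : γ → List Word} {g : γ → Word} (hf : PT f) (hg : PT g) :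
    PT fun c => LD.mem1 (f c) (g c) :=
  any (p := fun c (w : Word) => decide (w = g c)) hf (eqWord snd (hg.comp fst))

end Pool.Agent.Lib.MP_634427_lc.PT
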