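import Pool.Agent.Lib.MP_634427_lc.LD.Defs

/-!
# Bounded search
-/

namespace Pool.Agent.Lib.MP_634427_lc.PT

variable {γ : Type} [Enc γ]

/-- bounded search -/
lemma findGreatest {p : γ → ℕ → Bool} {n : γ → ℕ} (hp : PT fun q : γ × ℕ => p q.1 q.2)
    (hn : PT n) : PT fun c => Nat.findGreatest (fun i => p c i = true) (n c) := by
  have key : ∀ (c : γ) (i : ℕ), Nat.rec (motive := fun _ => ℕ) 0
      (fun i r => bif p c (i + 1) then i + 1 else r) i
      = Nat.findGreatest (fun i => p c i = true) i := by
    intro c i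
    induction i with
    | zero => rfl
    | succ i ih =>
      rw [Nat.findGreatest_succ, ← ih]
      cases h : p c (i + 1) <;> simp [h]
  have hf : PT fun q : γ × ℕ × ℕ => bif p q.1 (q.2.1 + 1) then q.2.1 + 1 else q.2.2 :=
    cond (hp.comp (pair fst (succ (fst' snd)))) (succ (fst' snd)) (snd' snd)
  have h := natRec (s := fun _ : γ => 0)
    (f := fun c (i : ℕ) (r : ℕ) => bif p c (i + 1) then i + 1 else r) hn (const 0) hf (by
      obtain ⟨k, hk⟩ := hn.size_le
      refine ⟨k, fun c i hi => ?_⟩
      rw [key c i, sz_nat]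
      have h1 := hk c
      rw [sz_nat] at h1
      exact ((Nat.findGreatest_le _).trans hi).trans h1)
  exact h.of_eq fun c => key c (n c)

end Pool.Agent.Lib.MP_634427_lc.PT
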