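import Pool.Agent.Lib.MP_634427_lc.LD.Defs

/-!
# There are matrices not given by few words
-/

namespace Pool.Agent.Lib.MP_634427_lc.LD

open Pool.Agent.Lib.MP_634427_lc

private lemma dropWhile_pad (k : ℕ) (w : Word) :
    (List.replicate k false ++ true :: w).dropWhile (fun b => !b) = true :: w := by
  induction k with
  | zero => simp
  | succ k ih => rw [List.replicate_succ, List.cons_append, List.dropWhile_cons]; exact ih

private lemma hasDec_data : Small.HasDec (List Row × List (List Word)) :=
  Small.hasDec_prod
    (Small.hasDec_list (Small.hasDec_prod (Small.hasDec_list Small.hasDec_bool)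
      (Small.hasDec_list (Small.hasDec_list Small.hasDec_bool))))
    (Small.hasDec_list (Small.hasDec_list (Small.hasDec_list Small.hasDec_bool)))

/-- Counting. -/
theorem exists_not_rep (E : Word × List Bool → Bool) {s N R : ℕ} (h : 2 * s + 2 ≤ N * R) :
    ∃ D : Word, D.length = N * R ∧ ¬ Rep E s N R D := by
  by_contra hcon
  push Not at hcon
  choose d hd hD using hcon
  obtain ⟨dec, -, hdec⟩ := hasDec_data
  have hlen : ∀ (D : Word) (hl : D.length = N * R),
      (code (enc (d D hl))).length ≤ 2 * s + 1 := by
    intro D hl
    rw [length_code]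
    have h1 : (enc (d D hl)).size ≤ s := hd D hl
    omega
  let f : List.Vector Bool (N * R) → List.Vector Bool (2 * s + 2) := fun D =>
    ⟨List.replicate (2 * s + 1 - (code (enc (d D.1 D.2))).length) false ++
      true :: code (enc (d D.1 D.2)), by
        have := hlen D.1 D.2
        simp only [List.length_append, List.length_replicate, List.length_cons]
        omega⟩
  have hinj : Function.Injective f := by
    intro D D' hDD
    have h1 := congrArg (fun v : List.Vector Bool (2 * s + 2) => v.1.dropWhile (fun b => !b)) hDD
    have h2 : true :: code (enc (d D.1 D.2)) = true :: code (enc (d D'.1 D'.2)) := by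
      have e1 := dropWhile_pad (2 * s + 1 - (code (enc (d D.1 D.2))).length)
        (code (enc (d D.1 D.2)))
      have e2 := dropWhile_pad (2 * s + 1 - (code (enc (d D'.1 D'.2))).length)
        (code (enc (d D'.1 D'.2)))
      exact e1.symm.trans (h1.trans e2)
    have h3 : enc (d D.1 D.2) = enc (d D'.1 D'.2) := by
      rw [← decode_code (enc (d D.1 D.2)), (List.cons.inj h2).2, decode_code]
    have h4 : d D.1 D.2 = d D'.1 D'.2 := by rw [← hdec (d D.1 D.2), h3, hdec]
    apply Subtype.ext
    rw [← hD D.1 D.2, ← hD D'.1 D'.2, h4]
  have hnot : (⟨List.replicate (2 * s + 2) false, by simp⟩ : List.Vector Bool (2 * s + 2)) ∉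
      Set.range f := by
    rintro ⟨D, hf⟩
    have h1 : (f D).1 = List.replicate (2 * s + 2) false := congrArg Subtype.val hf
    have h2 : true ∈ List.replicate (2 * s + 2) false := by
      rw [← h1]
      exact List.mem_append_right _ List.mem_cons_self
    simp at h2
  have hcard := Fintype.card_lt_of_injective_of_notMem f hinj hnot
  rw [card_vector, card_vector, Fintype.card_bool] at hcard
  exact absurd hcard (not_lt.2 (Nat.pow_le_pow_right (by omega) h))

end Pool.Agent.Lib.MP_634427_lc.LD
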