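import Pool.Agent.Lib.MP_634427_lc.Small.Canon
import Pool.Agent.Lib.MP_634427_lc.Small.CoNP

/-!
# Low density, shrinking instances: definitions

Numerals as short names, decision lists which give short names to the prefixes of a word, matrices
given by few oracle words, the questions `K1` and `K2`, the machine.
-/

namespace Pool.Agent.Lib.MP_634427_lc.LD

open Pool.Agent.Lib.MP_634427_lc

/-! ### Numerals -/

/-- Add one to a binary number (least significant digit first). -/
def inc : Word → Word
  | [] => [true]
  | false :: l => true :: l
  | true :: l => false :: inc l

/-- The binary numeral of `n`. -/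
def bits : ℕ → Word
  | 0 => []
  | n + 1 => inc (bits n)

/-- The number of the words of `l` before the first `w`. -/
def ix (w : Word) (l : List Word) : ℕ :=
  l.foldr (fun a r => bif decide (a = w) then 0 else r + 1) 0

/-- The letter of `u` at the position with the numeral `q`. -/
def look (u q : Word) : Bool :=
  (List.range u.length).any fun p => decide (bits p = q) && u.getD p false

/-- Is `v` a member of `z`? -/
def mem1 (z : List Word) (v : Word) : Bool := z.any fun w => decide (w = v)

/-! ### Decision lists -/

/-- The rule `(j, (q, (b, i)))`: if the current name is `j` and the letter of the word at the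
position with numeral `q` is `b`, then the new name is `i`. -/
abbrev Rule : Type := Word × (Word × (Bool × Word))

/-- Apply a rule for the word `u` to the current name. -/
def app1 (u : Word) (r : Rule) (cur : Word) : Word :=
  bif decide (cur = r.1) && (look u r.2.1 == r.2.2.1) then r.2.2.2 else cur

/-- The name of `u` (the rules are applied beginning at the end of the list). -/
def route (rs : List Rule) (u : Word) : Word := rs.foldr (app1 u) []

/-- The number of the words behind the first `v`. -/
def tl (v : Word) : List Word → ℕ
  | [] => 0
  | a :: l => if a = v then l.length else tl v l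

/-- The word of `l` with name `ν`; the name of a word is the numeral of the number of the words
behind it. -/
def wd (ν : Word) : List Word → Word
  | [] => []
  | a :: l => bif decide (bits l.length = ν) then a else wd ν l

/-- The first position at which `v` and `w` differ. -/
def fd (v w : Word) : ℕ :=
  ((List.range v.length).find? fun p => v.getD p false != w.getD p false).getD 0

/-- The decision list for the words of a list. -/
def mk : List Word → List Rule
  | [] => []
  | v :: l => (route (mk l) v, (bits (fd v (wd (route (mk l) v) l)),
      (v.getD (fd v (wd (route (mk l) v) l)) false, bits l.length))) :: mk l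

/-! ### Matrices given by few words -/

/-- A word `e` and a list of names. -/
abbrev Row : Type := Word × List Word

/-- The value of the rule `E` when the true names are those in `z`. -/
def ev (E : Word × List Bool → Bool) (z : List Word) (ρ : Row) : Bool :=
  E (ρ.1, ρ.2.map fun v => mem1 z v)

/-- The matrix (row by row) with the entries `ev E (z_i) (ρ_j)`. -/
def mat (E : Word × List Bool → Bool) (N R : ℕ) (d : List Row × List (List Word)) : Word :=
  (List.range N).flatMap fun j =>
    (List.range R).map fun i => ev E (d.2.getD i []) (d.1.getD j ([], []))

/-- The matrix `D` is given by data of size at most `s`. -/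
def Rep (E : Word × List Bool → Bool) (s N R : ℕ) (D : Word) : Prop :=
  ∃ d : List Row × List (List Word), sz d ≤ s ∧ mat E N R d = D

/-- First question: rows with labels. -/
abbrev Q1 : Type := ℕ × List (Row × Bool)

/-- Is there a list of names of size at most `a.1` for which all rows get their labels? -/
def K1 (E : Word × List Bool → Bool) (a : Q1) : Prop :=
  ∃ z : List Word, sz z ≤ a.1 ∧ ∀ q ∈ a.2, ev E z q.1 = q.2

/-- Second question: `(s, (N, (R, π)))`. -/
abbrev Q2 : Type := ℕ × (ℕ × (ℕ × Word))

/-- Has the word `π` an extension to a matrix which is not given by data of size at most `s`? -/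
def K2 (E : Word × List Bool → Bool) (a : Q2) : Prop :=
  ∃ D : Word, D.length = a.2.1 * a.2.2.1 ∧ a.2.2.2 <+: D ∧ ¬ Rep E a.1 a.2.1 a.2.2.1 D

/-- The word for a first question. -/
def w1 (a : Q1) : Word := true :: code (enc a)

/-- The word for a second question. -/
def w2 (a : Q2) : Word := false :: code (enc a)

/-- The set `U` answers both questions. -/
def Answers (E : Word × List Bool → Bool) (U : Set Word) : Prop :=
  (∀ a, w1 a ∈ U ↔ K1 E a) ∧ ∀ a, w2 a ∈ U ↔ K2 E a

/-! ### The questions about first witnesses -/

/-- `u` is the first witness of `y`. -/
def First (Rel : Word × Word → Bool) (m : Word → ℕ) (y u : Word) : Prop :=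
  u.length = m y ∧ Rel (y, u) = true ∧
    ∀ w : Word, w.length = m y → Rel (y, w) = true → ¬ Small.Bef w u

/-- A word `y`, a decision list, and a list of names. -/
abbrev QA : Type := Word × (List Rule × List Word)

/-- The set `A` contains the code of `(y, (rs, T))` iff the name of the first witness of `y` is in
`T`. -/
def AskSet (Rel : Word × Word → Bool) (m : Word → ℕ) (A : Set Word) : Prop :=
  ∀ a : QA, code (enc a) ∈ A ↔
    ∃ u, First Rel m a.1 u ∧ mem1 a.2.2 (route a.2.1 u) = true

/-- The names of the candidates with a one in row `j` of the matrix `D`. -/
def names (R j : ℕ) (D : Word) : List Word :=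
  ((List.range R).filter fun i => D.getD (j * R + i) false).map bits

/-- The question for the reduction for row `j`. -/
def inst (y : Word) (V : List Word) (R : ℕ) (D : Word) (j : ℕ) : Word :=
  code (enc (y, (mk V, names R j D)))

/-- The rows of the reduction `f`. -/
def rows (f : Word → Word × List Word) (y : Word) (V : List Word) (N R : ℕ) (D : Word) :
    List Row := (List.range N).map fun j => f (inst y V R D j)

/-- All words asked. -/
def pool (rs : List Row) : List Word := rs.flatMap fun ρ => ρ.2

/-- The row with names instead of words. -/
def nrow (P : List Word) (ρ : Row) : Row := (ρ.1, ρ.2.map fun w => bits (ix w P))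

/-- The first question for the candidate `i`. -/
def q1 (f : Word → Word × List Word) (y : Word) (V : List Word) (N R s1 : ℕ) (D : Word) (i : ℕ) :
    Q1 :=
  (s1, (List.range N).map fun j =>
    (nrow (pool (rows f y V N R D)) ((rows f y V N R D).getD j ([], [])),
      D.getD (j * R + i) false))

/-- The candidate with the name `bits i`. -/
def cand (V : List Word) (i : ℕ) : Word := V.reverse.getD i []

/-! ### Machines -/

/-- A machine that asks questions: initial state, question (or the end), next state, output. -/
structure Mach (σ : Type) where
  /-- initial state -/
  ini : Word → σ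
  /-- the question, or the end -/
  ask : σ → Option Word
  /-- the next state -/
  upd : σ → Bool → σ
  /-- the output -/
  out : σ → Bool

variable {σ : Type}

open Classical in
/-- One step with true answers. -/
noncomputable def Mach.step (M : Mach σ) (U : Set Word) (s : σ) : σ :=
  match M.ask s with
  | none => s
  | some q => M.upd s (decide (q ∈ U))

/-- The functions of the machine are computable in polynomial time. -/
structure Mach.IsPT [Enc σ] (M : Mach σ) : Prop where
  ini : PT M.ini
  ask : PT M.ask
  upd : PT fun p : σ × Bool => M.upd p.1 p.2
  out : PT M.out

/-- The machine decides `B` with questions to `U` of size at most `n ^ (K / (K + 1))`. -/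
def Mach.Solves [Enc σ] (M : Mach σ) (B U : Set Word) (K : ℕ) : Prop :=
  ∃ a : ℕ, ∀ y : Word, ∃ n ≤ (y.length + 2) ^ a,
    M.ask ((M.step U)^[n] (M.ini y)) = none ∧
    (M.out ((M.step U)^[n] (M.ini y)) = true ↔ y ∈ B) ∧
    (∀ i < n, ∃ q, M.ask ((M.step U)^[i] (M.ini y)) = some q ∧
      (q.length + 2) ^ (K + 1) ≤ (y.length + 2) ^ K) ∧
    ∀ i ≤ n, sz ((M.step U)^[i] (M.ini y)) ≤ (y.length + 2) ^ a

/-! ### The machine for a set in NP -/

/-- The parameters: relation, length of witnesses, reduction, number of rows, number of columns,
size of the data, size of the lists of names, length below which a table is used, the table. -/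
structure Par where
  /-- the relation -/
  Rel : Word × Word → Bool
  /-- length of the witnesses -/
  m : Word → ℕ
  /-- the reduction -/
  f : Word → Word × List Word
  /-- number of rows -/
  N : Word → ℕ
  /-- number of columns -/
  R : Word → ℕ
  /-- size of the data -/
  s : Word → ℕ
  /-- size of the lists of names -/
  s1 : Word → ℕ
  /-- short words are looked up in a table -/
  n0 : ℕ
  /-- the table -/
  tab : Word → Bool

/-- The state: the word, the beginning of the matrix, the list of candidates, the answers of the
current block, the number of the remaining questions. -/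
abbrev St : Type := Word × (Word × (List Word × (Word × ℕ)))

/-- The position of the first zero. -/
def ff (α : Word) : ℕ := ((List.range α.length).find? fun i => !(α.getD i true)).getD 0

/-- The next list of candidates: extend all by one letter, or delete the first candidate that
has failed. -/
def nxt (R m : ℕ) (L : List Word) (α : Word) : List Word :=
  if L.length < R then
    (if (L.all fun v => decide (v.length < m)) then ext L else L)
  else L.filter fun v => decide (v ≠ cand (L.take R) (ff α))

/-- The number of questions. -/
def Par.T (P : Par) (y : Word) : ℕ := P.N y * P.R y + P.R y * (P.m y * P.R y + P.R y)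

/-- The machine. -/
def Par.mach (P : Par) : Mach St where
  ini y := (y, ([], ([[]], ([], if P.n0 ≤ y.length then P.T y else 0))))
  ask := fun s => if s.2.2.2.2 = 0 then none else
    if s.2.1.length < P.N s.1 * P.R s.1 then
      some (w2 (P.s s.1, (P.N s.1, (P.R s.1, s.2.1 ++ [false]))))
    else some (w1 (q1 P.f s.1 (s.2.2.1.take (P.R s.1)) (P.N s.1) (P.R s.1) (P.s1 s.1) s.2.1
      s.2.2.2.1.length))
  upd := fun s b => if s.2.1.length < P.N s.1 * P.R s.1 then
      (s.1, (s.2.1 ++ [!b], (s.2.2.1, (s.2.2.2.1, s.2.2.2.2 - 1))))
    else if s.2.2.2.1.length + 1 < P.R s.1 then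
      (s.1, (s.2.1, (s.2.2.1, (s.2.2.2.1 ++ [b], s.2.2.2.2 - 1))))
    else (s.1, (s.2.1, (nxt (P.R s.1) (P.m s.1) s.2.2.1 (s.2.2.2.1 ++ [b]),
      ([], s.2.2.2.2 - 1))))
  out := fun s => if P.n0 ≤ s.1.length then
      s.2.2.1.any fun u => decide (u.length = P.m s.1) && P.Rel (s.1, u)
    else P.tab s.1

end Pool.Agent.Lib.MP_634427_lc.LD
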