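import Pool.Agent.Lib.MP_634427_lc.LD.Defs

/-!
# The entries of a matrix
-/

namespace Pool.Agent.Lib.MP_634427_lc.LD

open Pool.Agent.Lib.MP_634427_lc

private lemma length_fm (g : ℕ → ℕ → Bool) (N R : ℕ) :
    ((List.range N).flatMap fun j => (List.range R).map (g j)).length = N * R := by
  induction N with
  | zero => simp
  | succ N ih =>
    rw [List.range_succ, List.flatMap_append, List.length_append, ih]
    simp [Nat.succ_mul]

private lemma getD_fm (g : ℕ → ℕ → Bool) (N R : ℕ) {i j : ℕ} (hi : i < R) (hj : j < N) :
    ((List.range N).flatMap fun j => (List.range R).map (g j)).getD (j * R + i) false = g j i := by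
  induction N with
  | zero => omega
  | succ N ih =>
    rw [List.range_succ, List.flatMap_append]
    rcases Nat.lt_or_ge j N with h | h
    · have hlt : j * R + i < ((List.range N).flatMap fun j => (List.range R).map (g j)).length := by
        rw [length_fm]
        calc j * R + i < j * R + R := by omega
          _ = (j + 1) * R := by ring
          _ ≤ N * R := Nat.mul_le_mul_right R h
      rw [List.getD_append _ _ _ _ hlt]
      exact ih h
    · obtain rfl : j = N := by omega
      have hge : ((List.range j).flatMap fun j => (List.range R).map (g j)).length ≤ j * R + i := by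
        rw [length_fm]; omega
      rw [List.getD_append_right _ _ _ _ hge, length_fm]
      simp [hi]

/-- The entries of `mat`. -/
lemma getD_mat (E : Word × List Bool → Bool) (N R : ℕ) (d : List Row × List (List Word))
    {i j : ℕ} (hi : i < R) (hj : j < N) : (mat E N R d).getD (j * R + i) false =
      ev E (d.2.getD i []) (d.1.getD j ([], [])) :=
  getD_fm (fun j i => ev E (d.2.getD i []) (d.1.getD j ([], []))) N R hi hj

lemma length_mat (E : Word × List Bool → Bool) (N R : ℕ) (d : List Row × List (List Word)) :
    (mat E N R d).length = N * R :=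
  length_fm (fun j i => ev E (d.2.getD i []) (d.1.getD j ([], []))) N R

/-- A matrix with the entries of `mat` is `mat`. -/
lemma eq_mat {E : Word × List Bool → Bool} {N R : ℕ} {d : List Row × List (List Word)} {D : Word}
    (hD : D.length = N * R) (h : ∀ j < N, ∀ i < R, D.getD (j * R + i) false =
      ev E (d.2.getD i []) (d.1.getD j ([], []))) : mat E N R d = D := by
  have hl : (mat E N R d).length = D.length := by rw [length_mat, hD]
  refine List.ext_getElem hl fun k h1 h2 => ?_
  have hk : k < N * R := by rw [← hD]; exact h2
  have hR : 0 < R := by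
    rcases Nat.eq_zero_or_pos R with h0 | h0
    · subst h0; simp at hk
    · exact h0
  have hi : k % R < R := Nat.mod_lt _ hR
  have hj : k / R < N := Nat.div_lt_of_lt_mul (by rw [Nat.mul_comm]; exact hk)
  have hk' : k / R * R + k % R = k := by
    rw [Nat.mul_comm]; exact Nat.div_add_mod k R
  have e1 := getD_mat E N R d hi hj
  have e2 := h _ hj _ hi
  rw [hk'] at e1 e2
  rw [List.getD_eq_getElem _ _ h1] at e1
  rw [List.getD_eq_getElem _ _ h2] at e2
  rw [e1, e2]

end Pool.Agent.Lib.MP_634427_lc.LD
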