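import Pool.Agent.Lib.MP_634427_lc.LD.Len
import Pool.Agent.Lib.MP_634427_lc.LD.MatA

/-!
# Some candidate fails
-/

namespace Pool.Agent.Lib.MP_634427_lc.LD

open Pool.Agent.Lib.MP_634427_lc

private lemma sz_le_mul {α : Type} [Enc α] {c : ℕ} (l : List α) (h : ∀ w ∈ l, sz w ≤ c) :
    sz l ≤ l.length * (c + 1) := by
  induction l with
  | nil => simp
  | cons a l ih =>
    have h1 := h a List.mem_cons_self
    have h2 := ih fun w hw => h w (List.mem_cons_of_mem a hw)
    rw [sz_cons, List.length_cons, Nat.add_mul, one_mul]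
    omega

private lemma getD_range {α : Type} (g : ℕ → α) (d : α) {n j : ℕ} (h : j < n) :
    ((List.range n).map g).getD j d = g j := by
  rw [List.getD_eq_getElem _ _ (by simpa using h)]
  simp

/-- Not all candidates pass. -/
theorem fail {E : Word × List Bool → Bool} {f : Word → Word × List Word} {y : Word}
    {V : List Word} {N R s1 s b t : ℕ} {D : Word} (hD : D.length = N * R)
    (hrep : ¬ Rep E s N R D)
    (hb : ∀ ρ ∈ rows f y V N R D, ρ.1.length + ρ.2.length ≤ b) (ht1 : 1 ≤ t)
    (ht : (pool (rows f y V N R D)).length < 2 ^ t)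
    (hs : N * (b * (2 * t + 1) + 2) + R * (s1 + 1) + 1 ≤ s) :
    ∃ i < R, ¬ K1 E (q1 f y V N R s1 D i) := by
  by_contra hcon
  push Not at hcon
  have hch : ∀ i, ∃ z : List Word, i < R → sz z ≤ s1 ∧
      ∀ q ∈ (q1 f y V N R s1 D i).2, ev E z q.1 = q.2 := by
    intro i
    by_cases hi : i < R
    · obtain ⟨z, h1, h2⟩ := hcon i hi
      exact ⟨z, fun _ => ⟨h1, h2⟩⟩
    · exact ⟨[], fun h => absurd h hi⟩
  choose z hz using hch
  have hrow : ∀ j < N, (rows f y V N R D).getD j ([], []) ∈ rows f y V N R D := by
    intro j hj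
    have hjN : j < (rows f y V N R D).length := by
      unfold rows
      rw [List.length_map, List.length_range]
      exact hj
    rw [List.getD_eq_getElem _ _ hjN]
    exact List.getElem_mem hjN
  refine hrep ⟨((List.range N).map fun j => nrow (pool (rows f y V N R D))
    ((rows f y V N R D).getD j ([], [])), (List.range R).map z), ?_, ?_⟩
  · have h1 := sz_le_mul (c := b * (2 * t + 1) + 1)
      ((List.range N).map fun j => nrow (pool (rows f y V N R D))
        ((rows f y V N R D).getD j ([], []))) (by
      intro w hw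
      obtain ⟨j, hj, rfl⟩ := List.mem_map.1 hw
      exact sz_nrow_le ht ht1 (hb _ (hrow j (List.mem_range.1 hj))))
    have h2 := sz_le_mul (c := s1) ((List.range R).map z) (by
      intro w hw
      obtain ⟨i, hi, rfl⟩ := List.mem_map.1 hw
      exact (hz i (List.mem_range.1 hi)).1)
    rw [List.length_map, List.length_range] at h1 h2
    rw [sz_pair]
    have h3 : N * (b * (2 * t + 1) + 1 + 1) = N * (b * (2 * t + 1) + 2) := rfl
    omega
  · refine eq_mat hD fun j hj i hi => ?_
    rw [getD_range z [] hi, getD_range _ _ hj]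
    exact ((hz i hi).2 (nrow (pool (rows f y V N R D)) ((rows f y V N R D).getD j ([], [])),
      D.getD (j * R + i) false) (List.mem_map.2 ⟨j, List.mem_range.2 hj, rfl⟩)).symm

end Pool.Agent.Lib.MP_634427_lc.LD
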