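import Pool.Agent.Lib.MP_634427_lc.LD.Defs

/-!
# The list of candidates
-/

namespace Pool.Agent.Lib.MP_634427_lc.LD

open Pool.Agent.Lib.MP_634427_lc

/-- The invariant of the list of candidates; `rem` bounds the number of the blocks which are
needed. -/
def Inv (R m : ℕ) (Fst : Word → Prop) (rem : ℕ) (L : List Word) : Prop :=
  ∃ ℓ ≤ m, (∀ v ∈ L, v.length = ℓ) ∧ L.Nodup ∧ L.length ≤ 2 * R ∧
    (m - ℓ) * R + (L.length + 1 - R) ≤ rem ∧ ∀ u, Fst u → u.take ℓ ∈ L

lemma inv_init {R m : ℕ} {Fst : Word → Prop} (hR : 1 ≤ R) :
    Inv R m Fst (m * R + R) [[]] := by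
  refine ⟨0, Nat.zero_le _, by simp, by simp, by simp; omega, ?_, fun u _ => by simp⟩
  simp only [Nat.sub_zero, List.length_cons, List.length_nil]
  omega

private lemma length_ext (L : List Word) : (ext L).length = 2 * L.length := by
  induction L with
  | nil => rfl
  | cons a L ih =>
    show ([a ++ [false], a ++ [true]] ++ ext L).length = _
    rw [List.length_append, ih]
    simp
    omega

private lemma mem_ext' {L : List Word} {v : Word} :
    v ∈ ext L ↔ ∃ w ∈ L, ∃ b : Bool, v = w ++ [b] := by
  unfold ext
  rw [List.mem_flatMap]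
  constructor
  · rintro ⟨w, hw, hv⟩
    rcases List.mem_cons.1 hv with rfl | hv
    · exact ⟨w, hw, false, rfl⟩
    · rcases List.mem_cons.1 hv with rfl | hv
      · exact ⟨w, hw, true, rfl⟩
      · simp at hv
  · rintro ⟨w, hw, b, rfl⟩
    refine ⟨w, hw, ?_⟩
    cases b <;> simp

private lemma nodup_ext {L : List Word} (h : L.Nodup) : (ext L).Nodup := by
  induction L with
  | nil => exact List.nodup_nil
  | cons a L ih =>
    rw [List.nodup_cons] at h
    show ([a ++ [false], a ++ [true]] ++ ext L).Nodup
    rw [List.nodup_append]
    refine ⟨by simp, ih h.2, ?_⟩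
    intro x hx y hy hxy
    subst hxy
    obtain ⟨w, hw, b, rfl⟩ := mem_ext'.1 hy
    have : w = a := by
      rcases List.mem_cons.1 hx with hx | hx
      · exact (List.append_inj' hx rfl).1
      · rcases List.mem_cons.1 hx with hx | hx
        · exact (List.append_inj' hx rfl).1
        · simp at hx
    subst this
    exact h.1 hw

private lemma length_filter_ne {L : List Word} (h : L.Nodup) {c : Word} (hc : c ∈ L) :
    (L.filter fun v => decide (v ≠ c)).length + 1 = L.length := by
  induction L with
  | nil => simp at hc
  | cons a L ih =>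
    rw [List.nodup_cons] at h
    by_cases hac : a = c
    · subst hac
      rw [List.filter_cons_of_neg (by simp)]
      have : (L.filter fun v => decide (v ≠ a)) = L := by
        rw [List.filter_eq_self]
        intro v hv
        simp only [ne_eq, decide_not, Bool.not_eq_eq_eq_not, Bool.not_true, decide_eq_false_iff_not]
        rintro rfl
        exact h.1 hv
      rw [this]
      simp
    · have hcL : c ∈ L := by
        rcases List.mem_cons.1 hc with rfl | h'
        · exact absurd rfl hac
        · exact h'
      rw [List.filter_cons_of_pos (by simpa using hac)]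
      simp only [List.length_cons]
      rw [ih h.2 hcL]

private lemma ff_spec {α : Word} (h : ∃ i < α.length, α.getD i true = false) :
    ff α < α.length ∧ α.getD (ff α) true = false := by
  unfold ff
  rcases hf : (List.range α.length).find? fun i => !(α.getD i true) with _ | i
  · exfalso
    rw [List.find?_eq_none] at hf
    obtain ⟨i, hi, hi2⟩ := h
    have := hf i (List.mem_range.2 hi)
    rw [hi2] at this
    simp at this
  · have h1 := List.mem_of_find?_eq_some hf
    have h2 := List.find?_some hf
    rw [List.mem_range] at h1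
    exact ⟨h1, by simpa using h2⟩

private lemma cand_mem {L : List Word} {R i : ℕ} (hR : R ≤ L.length) (hi : i < R) :
    cand (L.take R) i ∈ L := by
  have hl : (L.take R).reverse.length = R := by
    rw [List.length_reverse, List.length_take]
    exact Nat.min_eq_left hR
  have h1 : cand (L.take R) i ∈ (L.take R).reverse := by
    unfold cand
    rw [List.getD_eq_getElem _ _ (by rw [hl]; exact hi)]
    exact List.getElem_mem _
  exact List.mem_of_mem_take (List.mem_reverse.1 h1)

lemma inv_step {R m rem : ℕ} {Fst : Word → Prop} {L : List Word} {α : Word} (hR : 1 ≤ R)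
    (hF : ∀ u, Fst u → u.length = m) (h : Inv R m Fst (rem + 1) L) (hα : α.length = R)
    (hfail : R ≤ L.length → ∃ i < R, α.getD i true = false)
    (hpass : R ≤ L.length → ∀ i < R, α.getD i true = false →
      ∀ u, Fst u → ¬ cand (L.take R) i <+: u) : Inv R m Fst rem (nxt R m L α) := by
  obtain ⟨ℓ, hℓ, hlen, hnd, hle, hrem, hmem⟩ := h
  unfold nxt
  split_ifs with h1 h2
  · -- extend
    rw [List.all_eq_true] at h2
    rcases Nat.lt_or_ge ℓ m with hlm | hlm
    · refine ⟨ℓ + 1, hlm, ?_, nodup_ext hnd, ?_, ?_, ?_⟩
      · intro v hv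
        obtain ⟨w, hw, b, rfl⟩ := mem_ext'.1 hv
        rw [List.length_append, hlen w hw]
        rfl
      · rw [length_ext]
        omega
      · rw [length_ext]
        obtain ⟨d, hd⟩ : ∃ d, m - ℓ = d + 1 := ⟨m - ℓ - 1, by omega⟩
        have hd2 : m - (ℓ + 1) = d := by omega
        rw [hd] at hrem
        rw [hd2]
        have h3 : (d + 1) * R = d * R + R := by ring
        omega
      · intro u hu
        have hul := hF u hu
        rw [mem_ext']
        refine ⟨u.take ℓ, hmem u hu, u[ℓ]'(by omega), ?_⟩
        rw [List.take_append_getElem]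
    · -- all lengths are less than m, so L is empty
      have hL : L = [] := by
        rcases L with _ | ⟨a, L⟩
        · rfl
        · exfalso
          have h3 := h2 a List.mem_cons_self
          have h4 := hlen a List.mem_cons_self
          simp only [decide_eq_true_eq] at h3
          omega
      subst hL
      refine ⟨ℓ, hℓ, by intro v hv; exact absurd hv (by simp [ext]), by simp [ext], by simp [ext],
        ?_, ?_⟩
      · have h3 : m - ℓ = 0 := by omega
        rw [h3]
        simp only [ext, List.flatMap_nil, List.length_nil]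
        omega
      · intro u hu
        exact absurd (hmem u hu) (by simp)
  · -- nothing to do
    have hlm : m ≤ ℓ := by
      by_contra hcon
      apply h2
      rw [List.all_eq_true]
      intro v hv
      have := hlen v hv
      simp only [decide_eq_true_eq]
      omega
    refine ⟨ℓ, hℓ, hlen, hnd, hle, ?_, hmem⟩
    have h3 : m - ℓ = 0 := by omega
    rw [h3]
    omega
  · -- delete
    have hRL : R ≤ L.length := Nat.le_of_not_lt h1
    have hff := ff_spec (α := α) (by rw [hα]; exact hfail hRL)
    rw [hα] at hff
    have hc := cand_mem hRL hff.1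
    have hlf := length_filter_ne hnd hc
    refine ⟨ℓ, hℓ, fun v hv => hlen v (List.mem_of_mem_filter hv), hnd.filter _, by omega, ?_, ?_⟩
    · omega
    · intro u hu
      rw [List.mem_filter]
      refine ⟨hmem u hu, ?_⟩
      simp only [ne_eq, decide_not, Bool.not_eq_eq_eq_not, Bool.not_true, decide_eq_false_iff_not]
      intro he
      exact hpass hRL (ff α) hff.1 hff.2 u hu (he ▸ List.take_prefix ℓ u)

lemma inv_end {R m : ℕ} {Fst : Word → Prop} {L : List Word} (hR : 1 ≤ R)
    (hF : ∀ u, Fst u → u.length = m) (h : Inv R m Fst 0 L) : ∀ u, Fst u → u ∈ L := by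
  obtain ⟨ℓ, hℓ, hlen, hnd, hle, hrem, hmem⟩ := h
  intro u hu
  have h1 : (m - ℓ) * R = 0 := by omega
  have h2 : m - ℓ = 0 := by
    rcases Nat.mul_eq_zero.1 h1 with h | h
    · exact h
    · omega
  have h3 := hmem u hu
  rwa [List.take_of_length_le (by rw [hF u hu]; omega)] at h3

end Pool.Agent.Lib.MP_634427_lc.LD
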