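import Pool.Agent.Lib.MP_634427_lc.LD.Rules

/-!
# Sizes
-/

namespace Pool.Agent.Lib.MP_634427_lc.LD

open Pool.Agent.Lib.MP_634427_lc

/-- Size of a list with small members. -/
private lemma sz_list_le {α : Type} [Enc α] {c : ℕ} (l : List α) (h : ∀ w ∈ l, sz w ≤ c) :
    sz l ≤ l.length * (c + 1) := by
  induction l with
  | nil => simp
  | cons a l ih =>
    have h1 := h a List.mem_cons_self
    have h2 := ih fun w hw => h w (List.mem_cons_of_mem a hw)
    rw [sz_cons, List.length_cons, Nat.add_mul, one_mul]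
    omega

/-- Size of a list of short words. -/
lemma sz_short_le {t : ℕ} (l : List Word) (h : ∀ w ∈ l, w.length ≤ t) :
    sz l ≤ l.length * (2 * t + 1) :=
  sz_list_le l fun w hw => (sz_word_le w).trans (Nat.mul_le_mul_left 2 (h w hw))

/-- Size of a row with names. -/
lemma sz_nrow_le {P : List Word} {ρ : Row} {b t : ℕ} (hP : P.length < 2 ^ t) (ht : 1 ≤ t)
    (hb : ρ.1.length + ρ.2.length ≤ b) : sz (nrow P ρ) ≤ b * (2 * t + 1) + 1 := by
  have h1 := sz_short_le (t := t) (ρ.2.map fun w => bits (ix w P)) (by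
    intro w hw
    obtain ⟨v, -, rfl⟩ := List.mem_map.1 hw
    exact length_bits_le ((ix_le P v).trans_lt hP))
  rw [List.length_map] at h1
  have h2 := sz_word_le ρ.1
  have h3 : ρ.1.length * (2 * t + 1) + ρ.2.length * (2 * t + 1) ≤ b * (2 * t + 1) := by
    rw [← Nat.add_mul]
    exact Nat.mul_le_mul_right _ hb
  have h4 : ρ.1.length * 2 ≤ ρ.1.length * (2 * t + 1) := Nat.mul_le_mul_left _ (by omega)
  show sz (ρ.1, ρ.2.map fun w => bits (ix w P)) ≤ _
  rw [sz_pair]
  omega

/-- The length of the word for a first question. -/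
theorem length_w1_le {f : Word → Word × List Word} {y : Word} {V : List Word}
    {N R s1 b t i : ℕ} {D : Word}
    (hb : ∀ ρ ∈ rows f y V N R D, ρ.1.length + ρ.2.length ≤ b) (ht1 : 1 ≤ t)
    (ht : (pool (rows f y V N R D)).length < 2 ^ t) :
    (w1 (q1 f y V N R s1 D i)).length ≤ 2 * (s1 + N * (b * (2 * t + 1) + 4)) + 4 := by
  have h1 := sz_list_le (c := b * (2 * t + 1) + 3) (q1 f y V N R s1 D i).2 (by
    intro w hw
    obtain ⟨j, hj, rfl⟩ := List.mem_map.1 hw
    have hjN : j < (rows f y V N R D).length := by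
      unfold rows
      rw [List.length_map, List.length_range]
      exact List.mem_range.1 hj
    have h2 := sz_nrow_le (P := pool (rows f y V N R D))
      (ρ := (rows f y V N R D).getD j ([], [])) ht ht1 (hb _ (by
        rw [List.getD_eq_getElem _ _ hjN]
        exact List.getElem_mem hjN))
    have h3 := sz_bool_le (D.getD (j * R + i) false)
    rw [sz_pair]
    omega)
  have hlen : (q1 f y V N R s1 D i).2.length = N := by
    unfold q1
    rw [List.length_map, List.length_range]
  rw [hlen, show b * (2 * t + 1) + 3 + 1 = b * (2 * t + 1) + 4 from rfl] at h1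
  have h4 : sz (q1 f y V N R s1 D i) = s1 + sz (q1 f y V N R s1 D i).2 + 1 := by
    rw [sz_prod]
    unfold q1
    rw [sz_nat]
  have h5 : (w1 (q1 f y V N R s1 D i)).length = 2 * sz (q1 f y V N R s1 D i) + 2 := by
    unfold w1
    rw [List.length_cons, length_code]
    rfl
  rw [h5, h4]
  omega

/-- The length of the word for a second question. -/
theorem length_w2_le (s N R : ℕ) (π : Word) :
    (w2 (s, (N, (R, π)))).length ≤ 2 * (s + N + R + 2 * π.length) + 8 := by
  have h1 : (w2 (s, (N, (R, π)))).length = 2 * sz (s, (N, (R, π))) + 2 := by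
    unfold w2
    rw [List.length_cons, length_code]
    rfl
  have h2 := sz_word_le π
  rw [h1, sz_pair, sz_pair, sz_pair, sz_nat, sz_nat, sz_nat]
  omega

/-- The length of the questions for the reduction. -/
theorem length_inst_le {y : Word} {V : List Word} {R j t ℓ : ℕ} {D : Word}
    (hℓ : ∀ v ∈ V, v.length ≤ ℓ) (hV : V.length ≤ R) (hbℓ : ℓ < 2 ^ t) (hR : R < 2 ^ t) :
    (inst y V R D j).length ≤ 4 * y.length + R * (16 * t + 12) + 5 := by
  have h1 := sz_mk_le V hℓ hbℓ (hV.trans_lt hR)
  have h2 := sz_short_le (t := t) (names R j D) (by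
    intro w hw
    unfold names at hw
    obtain ⟨i, hi, rfl⟩ := List.mem_map.1 hw
    exact length_bits_le ((List.mem_range.1 (List.mem_filter.1 hi).1).trans hR))
  have h3 : (names R j D).length ≤ R := by
    unfold names
    rw [List.length_map]
    exact (List.length_filter_le _ _).trans (by rw [List.length_range])
  have h4 := sz_word_le y
  have h5 : (inst y V R D j).length = 2 * sz (y, (mk V, names R j D)) + 1 := by
    unfold inst
    rw [length_code]
    rfl
  have h6 : V.length * (6 * t + 5) ≤ R * (6 * t + 5) := Nat.mul_le_mul_right _ hV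
  have h7 : (names R j D).length * (2 * t + 1) ≤ R * (2 * t + 1) := Nat.mul_le_mul_right _ h3
  have h8 : R * (16 * t + 12) = 2 * (R * (6 * t + 5)) + 2 * (R * (2 * t + 1)) := by ring
  rw [h5, sz_pair, sz_pair, h8]
  omega

end Pool.Agent.Lib.MP_634427_lc.LD
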