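import Pool.Agent.Lib.MP_634427_lc.LD.QuestPT
import Pool.Agent.Lib.MP_634427_lc.AlgoPT

/-!
# The machine works in polynomial time
-/

namespace Pool.Agent.Lib.MP_634427_lc.LD

open Pool.Agent.Lib.MP_634427_lc

/-- All parameters are computable in polynomial time. -/
structure Par.IsPT (P : Par) : Prop where
  Rel : PT P.Rel
  m : PT P.m
  f : PT P.f
  N : PT P.N
  R : PT P.R
  s : PT P.s
  s1 : PT P.s1
  tab : PT P.tab

private lemma pt_ff {γ : Type} [Enc γ] {α : γ → Word} (hα : PT α) : PT fun c => ff (α c) :=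
  PT.getD (PT.find? (p := fun c (i : ℕ) => !((α c).getD i true)) (PT.range (PT.length hα))
    (PT.not (PT.getLD PT.snd (hα.comp PT.fst) (PT.const true)))) (PT.const 0)

lemma pt_nxt {γ : Type} [Enc γ] {R m : γ → ℕ} {L : γ → List Word} {α : γ → Word} (hR : PT R)
    (hm : PT m) (hL : PT L) (hα : PT α) : PT fun c => nxt (R c) (m c) (L c) (α c) := by
  have h1 : PT fun c => (L c).filter fun v => decide (v ≠ cand ((L c).take (R c)) (ff (α c))) :=
    PT.filter (p := fun c v => decide (v ≠ cand ((L c).take (R c)) (ff (α c)))) hL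
      ((PT.not (PT.eqWord PT.snd ((PT.candLD (PT.take hR hL) (pt_ff hα)).comp PT.fst))).of_eq
        fun q => by simp)
  have h2 : PT fun c => (L c).all fun v => decide (v.length < m c) :=
    PT.all (p := fun c (v : Word) => decide (v.length < m c)) hL
      (PT.lt (PT.length PT.snd) (hm.comp PT.fst))
  refine (PT.cond (PT.lt (PT.length hL) hR) (PT.cond h2 (PT.ext hL) hL) h1).of_eq fun c => ?_
  unfold nxt
  by_cases h : (L c).length < R c
  · by_cases h' : ((L c).all fun v => decide (v.length < m c)) = true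
    · rw [if_pos h, if_pos h', decide_eq_true h, cond_true, h', cond_true]
    · rw [if_pos h, if_neg h', decide_eq_true h, cond_true, Bool.eq_false_iff.2 h', cond_false]
  · rw [if_neg h, decide_eq_false h, cond_false]

private lemma pt_word {γ : Type} [Enc γ] {α : Type} [Enc α] {f : γ → α} (hf : PT f) (b : Bool) :
    PT fun c => b :: code (enc (f c)) := by
  have h : PT fun a : α => enc a := ⟨_, .id, fun _ => rfl⟩
  exact PT.cons (PT.const b) (PT.code (h.comp hf))

private lemma pt_T {P : Par} (h : P.IsPT) : PT P.T :=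
  PT.add (PT.mul h.N h.R) (PT.mul h.R (PT.add (PT.mul h.m h.R) h.R))

theorem Par.IsPT.mach {P : Par} (h : P.IsPT) : P.mach.IsPT := by
  have y : PT fun s : St => s.1 := PT.fst
  have D : PT fun s : St => s.2.1 := PT.fst' PT.snd
  have L : PT fun s : St => s.2.2.1 := PT.fst' (PT.snd' PT.snd)
  have α : PT fun s : St => s.2.2.2.1 := PT.fst' (PT.snd' (PT.snd' PT.snd))
  have t : PT fun s : St => s.2.2.2.2 := PT.snd' (PT.snd' (PT.snd' PT.snd))
  have N : PT fun s : St => P.N s.1 := h.N.comp y
  have R : PT fun s : St => P.R s.1 := h.R.comp y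
  have m : PT fun s : St => P.m s.1 := h.m.comp y
  have hc : PT fun s : St => decide (s.2.1.length < P.N s.1 * P.R s.1) :=
    PT.lt (PT.length D) (PT.mul N R)
  refine ⟨?_, ?_, ?_, ?_⟩
  · exact PT.pair PT.id (PT.pair (PT.const []) (PT.pair (PT.const [[]]) (PT.pair (PT.const [])
      (PT.ite (PT.le (PT.const P.n0) (PT.length PT.id)) (pt_T h) (PT.const 0)))))
  · refine PT.ite (PT.isZero t) (PT.const none) (PT.ite hc (PT.some (pt_word (PT.pair
      (h.s.comp y) (PT.pair N (PT.pair R (PT.append D (PT.const [false]))))) false)) (PT.some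
      (pt_word (PT.q1LD h.f y (PT.take R L) N R (h.s1.comp y) D (PT.length α)) true)))
  · have b : PT fun p : St × Bool => p.2 := PT.snd
    have g : PT fun p : St × Bool => p.1 := PT.fst
    have t' : PT fun p : St × Bool => p.1.2.2.2.2 - 1 := PT.sub (t.comp g) (PT.const 1)
    have α' : PT fun p : St × Bool => p.1.2.2.2.1 ++ [p.2] :=
      PT.append (α.comp g) (PT.cons b (PT.const []))
    exact PT.ite (hc.comp g)
      (PT.pair (y.comp g) (PT.pair (PT.append (D.comp g) (PT.cons (PT.not b) (PT.const [])))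
        (PT.pair (L.comp g) (PT.pair (α.comp g) t'))))
      (PT.ite (PT.lt (PT.succ (PT.length (α.comp g))) (R.comp g))
        (PT.pair (y.comp g) (PT.pair (D.comp g) (PT.pair (L.comp g) (PT.pair α' t'))))
        (PT.pair (y.comp g) (PT.pair (D.comp g) (PT.pair
          (pt_nxt (R.comp g) (m.comp g) (L.comp g) α') (PT.pair (PT.const []) t')))))
  · exact PT.ite (PT.le (PT.const P.n0) (PT.length y))
      (PT.any (p := fun (s : St) (u : Word) => decide (u.length = P.m s.1) && P.Rel (s.1, u)) L
        (PT.and (PT.eqNat (PT.length PT.snd) (m.comp PT.fst))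
          (h.Rel.comp (PT.pair (y.comp PT.fst) PT.snd))))
      (h.tab.comp y)

end Pool.Agent.Lib.MP_634427_lc.LD
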