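import Pool.Agent.Lib.MP_634427_lc.LD.Defs

/-!
# Machines with questions to a set in P
-/

namespace Pool.Agent.Lib.MP_634427_lc.LD

open Pool.Agent.Lib.MP_634427_lc

variable {σ : Type} [Enc σ]

/-- A machine with questions to a set in P decides a set in P. -/
theorem Mach.Solves.inP {M : Mach σ} {B U : Set Word} {K : ℕ} (hM : M.IsPT)
    (h : M.Solves B U K) (hU : InP U) : InP B := by
  classical
  obtain ⟨a, H⟩ := h
  obtain ⟨u, hu, hU⟩ := hU
  have hdec : ∀ (q : Word) (i : Decidable (q ∈ U)), @decide (q ∈ U) i = u q := by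
    intro q i
    by_cases hq : q ∈ U
    · rw [decide_eq_true hq, (hU q).1 hq]
    · have h1 : u q = false := by
        rcases hc : u q with _ | _
        · rfl
        · exact absurd ((hU q).2 hc) hq
      rw [decide_eq_false hq, h1]
  have hst : ∀ s : σ, (match M.ask s with | none => s | some q => M.upd s (u q)) =
      M.step U s := by
    intro s
    unfold Mach.step
    rcases M.ask s with _ | q
    · rfl
    · exact congrArg (M.upd s) (hdec q _).symm
  have hstep : PT fun s : σ => M.step U s :=
    (PT.casesOption (o := M.ask) (f := fun s : σ => s) (g := fun s q => M.upd s (u q)) hM.ask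
      PT.id (hM.upd.comp (PT.pair PT.fst (hu.comp PT.snd)))).of_eq fun s => by
        rw [← hst s]
        rcases M.ask s with _ | q <;> rfl
  have hstay : ∀ (n : ℕ) (s : σ), M.ask s = none → (M.step U)^[n] s = s := by
    intro n s hs
    have h1 : M.step U s = s := by rw [← hst s, hs]
    exact Function.iterate_fixed h1 n
  have hlate : ∀ (n m : ℕ) (s : σ), n ≤ m → M.ask ((M.step U)^[n] s) = none →
      (M.step U)^[m] s = (M.step U)^[n] s := by
    intro n m s hnm hs
    obtain ⟨k, rfl⟩ := Nat.exists_eq_add_of_le' hnm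
    rw [Function.iterate_add_apply]
    exact hstay k _ hs
  have hn : PT fun y : Word => (y.length + 2) ^ a :=
    PT.pow (PT.add (PT.length PT.id) (PT.const 2)) a
  have hit : PT fun y : Word => (M.step U)^[(y.length + 2) ^ a] (M.ini y) := by
    refine PT.iterate (f := fun _ s => M.step U s) hn hM.ini (hstep.comp PT.snd)
      ⟨a, fun y i _ => ?_⟩
    obtain ⟨n, -, h1, -, -, h4⟩ := H y
    have h5 : sz ((M.step U)^[i] (M.ini y)) ≤ (y.length + 2) ^ a := by
      rcases le_or_gt i n with hi | hi
      · exact h4 i hi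
      · rw [hlate n i _ hi.le h1]
        exact h4 n le_rfl
    refine h5.trans (Nat.pow_le_pow_left ?_ a)
    have := length_le_sz y
    omega
  refine ⟨fun y => M.out ((M.step U)^[(y.length + 2) ^ a] (M.ini y)), hM.out.comp hit,
    fun x => ?_⟩
  obtain ⟨n, hn, h1, h2, -, -⟩ := H x
  show x ∈ B ↔ M.out ((M.step U)^[(x.length + 2) ^ a] (M.ini x)) = true
  rw [hlate n _ _ hn h1]
  exact h2.symm

end Pool.Agent.Lib.MP_634427_lc.LD
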