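import Pool.Agent.Lib.MP_634427_lc.LD.Defs

/-!
# Shrinking questions: recursion with a stack
-/

namespace Pool.Agent.Lib.MP_634427_lc.LD

open Pool.Agent.Lib.MP_634427_lc

/-- A computation of `n` steps from `s` to `t`; all states except the last one satisfy `P`. -/
def Tr {T : Type} (step : T → T) (P : T → Prop) (s t : T) (n : ℕ) : Prop :=
  step^[n] s = t ∧ ∀ j < n, P (step^[j] s)

namespace Tr

variable {T : Type} {step : T → T} {P Q : T → Prop} {s t u : T} {n m : ℕ}

lemma refl (s : T) : Tr step P s s 0 := ⟨rfl, fun j hj => absurd hj (by omega)⟩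

lemma single (h : P s) : Tr step P s (step s) 1 := ⟨rfl, fun j hj => by
  obtain rfl : j = 0 := by omega
  exact h⟩

lemma trans (h1 : Tr step P s t n) (h2 : Tr step P t u m) : Tr step P s u (n + m) := by
  refine ⟨?_, fun j hj => ?_⟩
  · rw [Nat.add_comm, Function.iterate_add_apply, h1.1, h2.1]
  · rcases Nat.lt_or_ge j n with h | h
    · exact h1.2 j h
    · obtain ⟨i, rfl⟩ := Nat.exists_eq_add_of_le h
      rw [Nat.add_comm, Function.iterate_add_apply, h1.1]
      exact h2.2 i (by omega)

lemma mono (h : Tr step P s t n) (hPQ : ∀ s, P s → Q s) : Tr step Q s t n :=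
  ⟨h.1, fun j hj => hPQ _ (h.2 j hj)⟩

end Tr

variable {σ : Type}

/-- One step of the recursion: the state is the answer to the last question (if it is known) and the
stack of the suspended computations. -/
def Mach.rstep (M : Mach σ) : Option Bool × List σ → Option Bool × List σ
  | (r, []) => (r, [])
  | (some b, st :: rest) => (none, M.upd st b :: rest)
  | (none, st :: rest) => match M.ask st with
    | none => (some (M.out st), rest)
    | some q => (none, M.ini q :: st :: rest)

lemma Mach.rstep_some (M : Mach σ) (b : Bool) (st : σ) (rest : List σ) :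
    M.rstep (some b, st :: rest) = (none, M.upd st b :: rest) := rfl

lemma Mach.rstep_end (M : Mach σ) {st : σ} (h : M.ask st = none) (rest : List σ) :
    M.rstep (none, st :: rest) = (some (M.out st), rest) := by
  unfold Mach.rstep
  simp only [h]

lemma Mach.rstep_ask (M : Mach σ) {st : σ} {q : Word} (h : M.ask st = some q) (rest : List σ) :
    M.rstep (none, st :: rest) = (none, M.ini q :: st :: rest) := by
  unfold Mach.rstep
  simp only [h]

lemma Mach.rstep_iter_nil (M : Mach σ) (r : Option Bool) (j : ℕ) : M.rstep^[j] (r, []) = (r, []) := by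
  induction j with
  | zero => rfl
  | succ j ih =>
    rw [Function.iterate_succ_apply', ih]
    rfl

lemma Mach.IsPT.rstep [Enc σ] {M : Mach σ} (hM : M.IsPT) : PT M.rstep := by
  have h1 := PT.casesOption (o := fun p : (Option Bool × List σ) × σ × List σ => M.ask p.2.1)
    (f := fun p => ((some (M.out p.2.1), p.2.2) : Option Bool × List σ))
    (g := fun p q => (none, M.ini q :: p.2.1 :: p.2.2))
    (hM.ask.comp (PT.fst' PT.snd))
    (PT.pair (PT.some (hM.out.comp (PT.fst' PT.snd))) (PT.snd' PT.snd))
    (PT.pair (PT.const none) (PT.cons (hM.ini.comp PT.snd) (PT.cons (PT.fst' (PT.snd' PT.fst))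
      (PT.snd' (PT.snd' PT.fst)))))
  have h2 := PT.casesOption (o := fun p : (Option Bool × List σ) × σ × List σ => p.1.1)
    (g := fun p b => ((none, M.upd p.2.1 b :: p.2.2) : Option Bool × List σ))
    (PT.fst' PT.fst) h1
    (PT.pair (PT.const none) (PT.cons (hM.upd.comp (PT.pair (PT.fst' (PT.snd' PT.fst)) PT.snd))
      (PT.snd' (PT.snd' PT.fst))))
  have h3 := PT.casesList (l := fun p : Option Bool × List σ => p.2) (f := fun p => p)
    (g := fun p st rest => M.rstep (p.1, st :: rest)) PT.snd PT.id (h2.of_eq fun p => by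
      rcases p with ⟨⟨r, l⟩, st, rest⟩
      rcases r with _ | b
      · rcases h : M.ask st with _ | q
        · rw [M.rstep_end h]
        · rw [M.rstep_ask h]
      · rfl)
  exact h3.of_eq fun p => by
    rcases p with ⟨r, _ | ⟨st, rest⟩⟩ <;> rfl

/-- The arithmetic of the recursion. -/
lemma rec_bound {N a X : ℕ} (hN : 2 ≤ N) (hX : 1 ≤ X) :
    N ^ a * (2 + X) + N ^ a + 6 ≤ X * N ^ (a + 4) := by
  have h1 : 1 ≤ N ^ a := Nat.one_le_pow _ _ (by omega)
  have h2 : 16 ≤ N ^ 4 := by
    calc 16 = 2 ^ 4 := by norm_num
      _ ≤ N ^ 4 := Nat.pow_le_pow_left hN 4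
  have h3 : N ^ (a + 4) = N ^ a * N ^ 4 := pow_add _ _ _
  rw [h3]
  calc N ^ a * (2 + X) + N ^ a + 6 ≤ X * (N ^ a * 16) := by nlinarith
    _ ≤ X * (N ^ a * N ^ 4) := Nat.mul_le_mul_left _ (Nat.mul_le_mul_left _ h2)

variable [Enc σ]

open Classical in
/-- A set that can be decided with shorter questions about itself is in P. -/
theorem Mach.Solves.self {M : Mach σ} {U : Set Word} {K : ℕ} (hM : M.IsPT)
    (h : M.Solves U U K) : InP U := by
  obtain ⟨a, H⟩ := h
  -- the bound for the cost
  let e : ℕ := (K + 1) * (a + 4)
  have hTb : ∀ (x : Word), (x.length + 2) ^ e =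
      (x.length + 2) ^ (K * (a + 4)) * (x.length + 2) ^ (a + 4) := by
    intro x
    rw [← pow_add]
    congr 1
    show (K + 1) * (a + 4) = _
    ring
  have hq : ∀ (x q : Word), (q.length + 2) ^ (K + 1) ≤ (x.length + 2) ^ K →
      (q.length + 2) ^ e ≤ (x.length + 2) ^ (K * (a + 4)) := by
    intro x q hxq
    show (q.length + 2) ^ ((K + 1) * (a + 4)) ≤ _
    rw [pow_mul, pow_mul (x.length + 2)]
    exact Nat.pow_le_pow_left hxq _
  have hlt : ∀ (x q : Word), (q.length + 2) ^ (K + 1) ≤ (x.length + 2) ^ K →
      q.length < x.length := by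
    intro x q hxq
    by_contra hcon
    have h1 : (x.length + 2) ^ (K + 1) ≤ (q.length + 2) ^ (K + 1) :=
      Nat.pow_le_pow_left (by omega) _
    have h2 : (x.length + 2) ^ K < (x.length + 2) ^ (K + 1) :=
      Nat.pow_lt_pow_right (by omega) (by omega)
    omega
  have key : ∀ (N : ℕ) (x : Word), x.length < N → ∀ rest : List σ,
      ∃ m ≤ (x.length + 2) ^ e,
        Tr M.rstep (fun p => sz p ≤ sz rest + (x.length + 2) ^ e) (none, M.ini x :: rest)
          (some (decide (x ∈ U)), rest) m := by
    intro N
    induction N with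
    | zero =>
      intro x h1
      omega
    | succ N ih =>
      intro x hxN rest
      obtain ⟨n, hn, hend, hout, hask, hsz⟩ := H x
      set X := (x.length + 2) ^ (K * (a + 4)) with hXdef
      have hX : 1 ≤ X := Nat.one_le_pow _ _ (by omega)
      have hB := rec_bound (N := x.length + 2) (a := a) (by omega) hX
      rw [← hTb x] at hB
      set B := (x.length + 2) ^ e with hBdef
      set A := (x.length + 2) ^ a with hAdef
      have hA : 1 ≤ A := Nat.one_le_pow _ _ (by omega)
      have hAX : X ≤ A * X := Nat.le_mul_of_pos_left _ hA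
      have hmul : A * (2 + X) = 2 * A + A * X := by ring
      -- simulate the steps of the machine
      have sim : ∀ j ≤ n, ∃ m ≤ j * (2 + X),
          Tr M.rstep (fun p => sz p ≤ sz rest + B) (none, M.ini x :: rest)
            (none, (M.step U)^[j] (M.ini x) :: rest) m := by
        intro j
        induction j with
        | zero => exact fun _ => ⟨0, Nat.zero_le _, Tr.refl _⟩
        | succ j ihj =>
          intro hj
          obtain ⟨m, hm, htr⟩ := ihj (by omega)
          obtain ⟨q, hq1, hq2⟩ := hask j (by omega)
          have hs := hsz j (by omega)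
          set st := (M.step U)^[j] (M.ini x) with hst
          have hnext : (M.step U)^[j + 1] (M.ini x) = M.upd st (decide (q ∈ U)) := by
            rw [Function.iterate_succ_apply', ← hst]
            unfold Mach.step
            simp only [hq1]
          rw [hnext]
          have hql := hlt x q hq2
          obtain ⟨m2, hm2, htr2⟩ := ih q (by omega) (st :: rest)
          have hqX := hq x q hq2
          rw [← hXdef] at hqX
          have p1 : Tr M.rstep (fun p => sz p ≤ sz rest + B) (none, st :: rest)
              (none, M.ini q :: st :: rest) 1 := by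
            rw [← M.rstep_ask hq1]
            refine Tr.single ?_
            simp only [sz_pair, sz_none, sz_cons]
            omega
          have p2 : Tr M.rstep (fun p => sz p ≤ sz rest + B) (none, M.ini q :: st :: rest)
              (some (decide (q ∈ U)), st :: rest) m2 := htr2.mono fun p hp => by
            rw [sz_cons] at hp
            omega
          have p3 : Tr M.rstep (fun p => sz p ≤ sz rest + B)
              (some (decide (q ∈ U)), st :: rest) (none, M.upd st (decide (q ∈ U)) :: rest) 1 := by
            rw [← M.rstep_some]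
            refine Tr.single ?_
            have := sz_bool_le (decide (q ∈ U))
            simp only [sz_pair, sz_some, sz_cons]
            omega
          refine ⟨m + (1 + (m2 + 1)), ?_, htr.trans (p1.trans (p2.trans p3))⟩
          rw [Nat.succ_mul]
          omega
      obtain ⟨m, hm, htr⟩ := sim n le_rfl
      have hs := hsz n le_rfl
      have h8 : n * (2 + X) ≤ A * (2 + X) := Nat.mul_le_mul_right _ hn
      have hbool : M.out ((M.step U)^[n] (M.ini x)) = decide (x ∈ U) := by
        rw [Bool.eq_iff_iff, hout, decide_eq_true_iff]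
      refine ⟨m + 1, by omega, htr.trans ?_⟩
      rw [← hbool, ← M.rstep_end hend]
      refine Tr.single ?_
      simp only [sz_pair, sz_none, sz_cons]
      omega
  -- the function in P
  have hbound : ∀ (x : Word) (j : ℕ), sz (M.rstep^[j] (none, [M.ini x])) ≤ (x.length + 2) ^ e + 3 := by
    intro x j
    obtain ⟨m, hm, htr⟩ := key (x.length + 1) x (by omega) []
    rcases Nat.lt_or_ge j m with h | h
    · have := htr.2 j h
      rw [sz_lnil, Nat.zero_add] at this
      exact this.trans (by omega)
    · obtain ⟨i, rfl⟩ := Nat.exists_eq_add_of_le h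
      rw [Nat.add_comm, Function.iterate_add_apply, htr.1, Mach.rstep_iter_nil]
      have := sz_bool_le (decide (x ∈ U))
      simp only [sz_pair, sz_some, sz_lnil]
      omega
  have hit := PT.iterate (n := fun x : Word => (x.length + 2) ^ e)
    (s := fun x : Word => ((none, [M.ini x]) : Option Bool × List σ))
    (f := fun (_ : Word) p => M.rstep p)
    (PT.pow (PT.add (PT.length PT.id) (PT.const 2)) e)
    (PT.pair (PT.const none) (PT.cons (hM.ini.comp PT.id) (PT.const [])))
    (hM.rstep.comp PT.snd) (by
      refine ⟨e + 3, fun x i _ => (hbound x i).trans ?_⟩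
      have h1 := length_le_sz x
      calc (x.length + 2) ^ e + 3 ≤ (sz x + 2) ^ e + 3 :=
            Nat.add_le_add_right (Nat.pow_le_pow_left (by omega) e) 3
        _ ≤ (sz x + 2) ^ (e + 3) := by
            have h2 : 1 ≤ (sz x + 2) ^ e := Nat.one_le_pow _ _ (by omega)
            have h3 : 8 ≤ (sz x + 2) ^ 3 := by
              calc 8 = 2 ^ 3 := by norm_num
                _ ≤ (sz x + 2) ^ 3 := Nat.pow_le_pow_left (by omega) 3
            rw [pow_add]
            nlinarith)
  refine ⟨fun x => ((M.rstep^[(x.length + 2) ^ e] (none, [M.ini x])).1.getD false),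
    PT.getD (PT.fst' hit) (PT.const false), fun x => ?_⟩
  obtain ⟨m, hm, htr⟩ := key (x.length + 1) x (by omega) []
  obtain ⟨i, hi⟩ := Nat.exists_eq_add_of_le hm
  simp only [hi]
  rw [Nat.add_comm, Function.iterate_add_apply, htr.1, Mach.rstep_iter_nil]
  show x ∈ U ↔ decide (x ∈ U) = true
  rw [decide_eq_true_iff]

end Pool.Agent.Lib.MP_634427_lc.LD
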