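import Pool.Agent.Lib.MP_634427_lc.LD.RunD
import Pool.Agent.Lib.MP_634427_lc.LD.MachPT
import Pool.Agent.Lib.MP_634427_lc.LD.Len

/-!
# The machine decides the set
-/

namespace Pool.Agent.Lib.MP_634427_lc.LD

open Pool.Agent.Lib.MP_634427_lc

variable {P : Par} {E : Word × List Bool → Bool} {B U : Set Word} {K : ℕ}

/-- A bound for the sizes of the states and the number of steps. -/
private def bnd (P : Par) (y : Word) : ℕ :=
  2 * y.length + 2 * (P.N y * P.R y) + 2 * P.R y * (2 * P.m y + 1) + 2 * P.R y + P.T y + 6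

private lemma bnd_pt (hPT : P.IsPT) : PT (bnd P) := by
  have hT : PT P.T := PT.add (PT.mul hPT.N hPT.R) (PT.mul hPT.R (PT.add (PT.mul hPT.m hPT.R) hPT.R))
  exact PT.add (PT.add (PT.add (PT.add (PT.add (PT.mul (PT.const 2) (PT.length PT.id))
    (PT.mul (PT.const 2) (PT.mul hPT.N hPT.R)))
    (PT.mul (PT.mul (PT.const 2) hPT.R) (PT.add (PT.mul (PT.const 2) hPT.m) (PT.const 1))))
    (PT.mul (PT.const 2) hPT.R)) hT) (PT.const 6)

private lemma bnd_le (hPT : P.IsPT) : ∃ a, ∀ y : Word, bnd P y ≤ (y.length + 2) ^ a := by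
  obtain ⟨c, hc⟩ := (bnd_pt hPT).size_le
  refine ⟨2 * c, fun y => ?_⟩
  have h1 := hc y
  rw [sz_nat] at h1
  have h2 := sz_word_le y
  have h3 : sz y + 2 ≤ (y.length + 2) ^ 2 := by nlinarith
  calc bnd P y ≤ (sz y + 2) ^ c := h1
    _ ≤ ((y.length + 2) ^ 2) ^ c := Nat.pow_le_pow_left h3 c
    _ = (y.length + 2) ^ (2 * c) := (Nat.pow_mul _ _ _).symm

private lemma sz_reach {y : Word} {c : ℕ} {s : St} (hc : c ≤ P.T y) (h : Reach P y c s) :
    sz s ≤ bnd P y := by
  obtain ⟨h1, h2, h3, h4, h5, h6⟩ := h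
  have e : sz s = sz s.1 + (sz s.2.1 + (sz s.2.2.1 + (sz s.2.2.2.1 + s.2.2.2.2 + 1) + 1) + 1) + 1 := by
    rw [sz_prod s, sz_prod s.2, sz_prod s.2.2, sz_prod s.2.2.2, sz_nat]
  have g1 : sz s.1 ≤ 2 * y.length := by
    rw [h1]
    exact sz_word_le y
  have g2 : sz s.2.1 ≤ 2 * (P.N y * P.R y) :=
    (sz_word_le _).trans (Nat.mul_le_mul_left 2 h2)
  have g3 : sz s.2.2.1 ≤ 2 * P.R y * (2 * P.m y + 1) :=
    (sz_short_le _ h4).trans (Nat.mul_le_mul_right _ h3)
  have g4 : sz s.2.2.2.1 ≤ 2 * P.R y := (sz_word_le _).trans (Nat.mul_le_mul_left 2 h5)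
  rw [e, h6]
  unfold bnd
  omega

/-- The machine solves `B`. -/
theorem Par.Good.solves (hP : P.Good E B K) (hPT : P.IsPT) (hU : Answers E U) :
    P.mach.Solves B U K := by
  classical
  obtain ⟨a, ha⟩ := bnd_le hPT
  refine ⟨a, fun y => ?_⟩
  rcases Nat.lt_or_ge y.length P.n0 with hy | hy
  · -- short words
    have hini : P.mach.ini y = (y, ([], ([[]], ([], 0)))) := by
      simp only [Par.mach]
      rw [if_neg (Nat.not_le.2 hy)]
    refine ⟨0, Nat.zero_le _, ?_, ?_, fun i hi => absurd hi (Nat.not_lt_zero i), ?_⟩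
    · rw [Function.iterate_zero_apply, hini]
      simp only [Par.mach]
      exact if_pos trivial
    · rw [Function.iterate_zero_apply, hini]
      have h : P.mach.out (y, ([], ([[]], ([], 0)))) = P.tab y := by
        simp only [Par.mach]
        rw [if_neg (Nat.not_le.2 hy)]
      rw [h]
      exact hP.tab y hy
    · intro i hi
      obtain rfl := Nat.le_zero.1 hi
      rw [Function.iterate_zero_apply, hini]
      refine le_trans ?_ (ha y)
      have h1 := sz_word_le y
      have h2 : sz ((y, ([], ([[]], ([], 0)))) : St) ≤ sz y + 6 := by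
        rw [sz_pair, sz_pair, sz_pair, sz_pair, sz_cons]
        simp only [sz_lnil, sz_nat]
        omega
      unfold bnd
      omega
  · -- long words
    obtain ⟨hreach, L, hL, D, α, hend⟩ := run hP hU hy
    have hT : P.T y ≤ (y.length + 2) ^ a := by
      refine le_trans ?_ (ha y)
      unfold bnd
      omega
    refine ⟨P.T y, hT, ?_, ?_, ?_, ?_⟩
    · rw [hend]
      simp only [Par.mach]
      exact if_pos trivial
    · rw [hend]
      have h : P.mach.out (y, (D, (L, (α, 0)))) =
          L.any fun u => decide (u.length = P.m y) && P.Rel (y, u) := by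
        simp only [Par.mach]
        rw [if_pos hy]
      rw [h, List.any_eq_true]
      constructor
      · rintro ⟨u, -, hu⟩
        rw [Bool.and_eq_true, decide_eq_true_iff] at hu
        exact (hP.rel y).2 ⟨u, hu.1, hu.2⟩
      · intro hyB
        obtain ⟨u, hu1, hu2, hu3⟩ := Small.exists_first (P.m y) (fun w => P.Rel (y, w) = true)
          ((hP.rel y).1 hyB)
        refine ⟨u, hL u ⟨hu1, hu2, hu3⟩, ?_⟩
        rw [Bool.and_eq_true, decide_eq_true_iff]
        exact ⟨hu1, hu2⟩
    · intro i hi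
      obtain ⟨h1, h2, h3, h4, h5, h6⟩ := hreach i hi.le
      generalize (P.mach.step U)^[i] (P.mach.ini y) = s at h1 h2 h3 h4 h5 h6
      obtain ⟨y', π, L', α', c⟩ := s
      simp only at h1 h2 h3 h4 h5 h6
      subst h1
      have hc : c ≠ 0 := by omega
      by_cases hπ : π.length < P.N y' * P.R y'
      · refine ⟨w2 (P.s y', (P.N y', (P.R y', π ++ [false]))), ?_, ?_⟩
        · simp only [Par.mach]
          rw [if_neg hc, if_pos hπ]
        · exact hP.len2 y' _ hy (by
            rw [List.length_append, List.length_singleton]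
            exact hπ)
      · refine ⟨w1 (q1 P.f y' (L'.take (P.R y')) (P.N y') (P.R y') (P.s1 y') π α'.length), ?_, ?_⟩
        · simp only [Par.mach]
          rw [if_neg hc, if_neg hπ]
        · exact hP.len1 y' _ _ _ hy (List.length_take_le _ _)
            (fun v hv => h4 v (List.mem_of_mem_take hv)) (by omega)
    · intro i hi
      exact (sz_reach (Nat.sub_le _ _) (hreach i hi)).trans (ha y)

end Pool.Agent.Lib.MP_634427_lc.LD
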