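import Pool.Agent.Lib.MP_634427_lc.LD.Defs

/-!
# Existential questions with a condition in NP
-/

namespace Pool.Agent.Lib.MP_634427_lc.LD

open Pool.Agent.Lib.MP_634427_lc

/-- Existential questions with a condition in NP. -/
theorem np_ex {α : Type} [Enc α] (F : Set Word) (hF : InNP F) (G : α × Word → Bool)
    (g : α × Word → Word) (m : α → ℕ) (hG : PT G) (hg : PT g) (hm : PT m) :
    ∃ A : Set Word, InNP A ∧ ∀ a, code (enc a) ∈ A ↔
      ∃ u : Word, u.length = m a ∧ G (a, u) = true ∧ g (a, u) ∈ F := by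
  obtain ⟨Rel2, m2, hRel2, hm2, hF2⟩ := Small.exists_rel hF
  obtain ⟨k, hk⟩ := hm2.size_le
  obtain ⟨j, hj⟩ := hg.size_le
  let bd : α → ℕ := fun a => (((sz a + 2 * m a + 1) + 2) ^ j + 2) ^ k
  have hbd : PT bd := PT.pow (PT.add (PT.pow (PT.add (PT.add (PT.add (PT.size PT.id)
    (PT.mul (PT.const 2) hm)) (PT.const 1)) (PT.const 2)) j) (PT.const 2)) k
  have hle : ∀ (a : α) (u : Word), u.length = m a → m2 (g (a, u)) ≤ bd a := by
    intro a u hu
    have h1 := hk (g (a, u))
    rw [sz_nat] at h1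
    refine h1.trans (Nat.pow_le_pow_left ?_ k)
    have h2 := hj (a, u)
    have h3 := sz_word_le u
    have h4 : sz (a, u) ≤ sz a + 2 * m a + 1 := by
      rw [sz_pair, ← hu]
      omega
    have h5 : (sz (a, u) + 2) ^ j ≤ ((sz a + 2 * m a + 1) + 2) ^ j :=
      Nat.pow_le_pow_left (by omega) j
    omega
  let z : α × Word → Word := fun c => g (c.1, c.2.take (m c.1))
  have htk : PT fun c : α × Word => (c.1, c.2.take (m c.1)) :=
    PT.pair PT.fst (PT.take (hm.comp PT.fst) PT.snd)
  have hz : PT z := hg.comp htk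
  let G' : α × Word → Bool := fun c => G (c.1, c.2.take (m c.1)) &&
    Rel2 (z c, (c.2.drop (m c.1)).take (m2 (z c)))
  have hG' : PT G' := PT.and (hG.comp htk)
    (hRel2.comp (PT.pair hz (PT.take (hm2.comp hz) (PT.drop (hm.comp PT.fst) PT.snd))))
  obtain ⟨A, hA, hA'⟩ := Small.exists_np_code G' (fun a => m a + bd a) hG' (PT.add hm hbd)
  refine ⟨A, hA, fun a => ?_⟩
  rw [hA' a]
  constructor
  · rintro ⟨w, hw, hGw⟩
    simp only [G', Bool.and_eq_true] at hGw
    have hlen : (w.take (m a)).length = m a := by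
      rw [List.length_take]
      omega
    refine ⟨w.take (m a), hlen, hGw.1, (hF2 _).2 ⟨_, ?_, hGw.2⟩⟩
    rw [List.length_take, List.length_drop, min_eq_left]
    have := hle a (w.take (m a)) hlen
    show m2 (g (a, w.take (m a))) ≤ _
    omega
  · rintro ⟨u, hu, hGu, hgu⟩
    obtain ⟨v, hv, hRv⟩ := (hF2 _).1 hgu
    have h1 := hle a u hu
    have h2 : (u ++ (v ++ List.replicate (bd a - v.length) false)).take (m a) = u := by
      rw [← hu, List.take_left']
      rfl
    refine ⟨u ++ (v ++ List.replicate (bd a - v.length) false), ?_, ?_⟩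
    · simp only [List.length_append, List.length_replicate]
      omega
    · simp only [G', z, h2, Bool.and_eq_true]
      refine ⟨hGu, ?_⟩
      rw [← hu, List.drop_left' rfl, ← hv, List.take_left' rfl]
      exact hRv

end Pool.Agent.Lib.MP_634427_lc.LD
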