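import Pool.Agent.Lib.MP_634427_lc.LD.Defs

/-!
# Disjoint unions
-/

namespace Pool.Agent.Lib.MP_634427_lc.LD

open Pool.Agent.Lib.MP_634427_lc

/-- The test for one half. -/
private def half (V : Word × Word → Bool) (c : ℕ) (v u : Word) : Bool :=
  decide (u.length ≤ v.length ^ c + c) && V (v, u)

private lemma pt_half {V : Word × Word → Bool} (hV : PT V) (c : ℕ) :
    PT fun p : Word × Word => half V c p.1 p.2 :=
  PT.and (PT.le (PT.length PT.snd) (PT.add (PT.pow (PT.length PT.fst) c) (PT.const c)))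
    (hV.comp (PT.pair PT.fst PT.snd))

private def ver (V W : Word × Word → Bool) (c d : ℕ) (p : Word × Word) : Bool :=
  match p.1 with
  | [] => false
  | b :: v => bif b then half V c v p.2 else half W d v p.2

private lemma pt_ver {V W : Word × Word → Bool} (hV : PT V) (hW : PT W) (c d : ℕ) :
    PT (ver V W c d) := by
  have h := PT.casesList (γ := Word × Word) (l := fun p => p.1) (f := fun _ => false)
    (g := fun p b v => bif b then half V c v p.2 else half W d v p.2) PT.fst (PT.const false)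
    (PT.cond (PT.fst' PT.snd)
      ((pt_half hV c).comp (PT.pair (PT.snd' PT.snd) (PT.snd' PT.fst)))
      ((pt_half hW d).comp (PT.pair (PT.snd' PT.snd) (PT.snd' PT.fst))))
  refine h.of_eq fun p => ?_
  obtain ⟨x, u⟩ := p
  cases x <;> rfl

private lemma bound_left (n c d : ℕ) : n ^ c + c ≤ (n + 1) ^ (c + d + 1) + (c + d + 1) := by
  have h1 : n ^ c ≤ (n + 1) ^ c := Nat.pow_le_pow_left (by omega) c
  have h2 : (n + 1) ^ c ≤ (n + 1) ^ (c + d + 1) := Nat.pow_le_pow_right (by omega) (by omega)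
  omega

/-- The disjoint union of two sets in NP is in NP. -/
theorem np_union {A B : Set Word} (hA : InNP A) (hB : InNP B) :
    InNP {w | (∃ v, w = true :: v ∧ v ∈ A) ∨ ∃ v, w = false :: v ∧ v ∈ B} := by
  obtain ⟨V, c, hV, hA⟩ := hA
  obtain ⟨W, d, hW, hB⟩ := hB
  refine ⟨ver V W c d, c + d + 1, pt_ver hV hW c d, fun x => ?_⟩
  constructor
  · rintro (⟨v, rfl, hv⟩ | ⟨v, rfl, hv⟩)
    · obtain ⟨u, h1, h2⟩ := (hA v).1 hv
      refine ⟨u, h1.trans ?_, ?_⟩
      · simpa using bound_left v.length c d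
      · simp [ver, half, h1, h2]
    · obtain ⟨u, h1, h2⟩ := (hB v).1 hv
      refine ⟨u, h1.trans ?_, ?_⟩
      · have := bound_left v.length d c
        rw [Nat.add_comm d c] at this
        simpa using this
      · simp [ver, half, h1, h2]
  · rintro ⟨u, -, hu⟩
    rcases x with _ | ⟨_ | _, v⟩
    · simp [ver] at hu
    · right
      refine ⟨v, rfl, (hB v).2 ⟨u, ?_⟩⟩
      simpa [ver, half] using hu
    · left
      refine ⟨v, rfl, (hA v).2 ⟨u, ?_⟩⟩
      simpa [ver, half] using hu

end Pool.Agent.Lib.MP_634427_lc.LD
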