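import Pool.Agent.Lib.MP_634427_lc.LD.BitsPT

/-!
# Decision lists and rules in polynomial time
-/

namespace Pool.Agent.Lib.MP_634427_lc.PT

variable {γ : Type} [Enc γ]

private lemma sz_route_le (u : Word) (l : List LD.Rule) : sz (l.foldr (LD.app1 u) []) ≤ sz l := by
  induction l with
  | nil => exact le_rfl
  | cons r l ih =>
    have h1 : sz r.2.2.2 ≤ sz r := by
      rw [sz_prod r, sz_prod r.2, sz_prod r.2.2]
      omega
    rw [List.foldr_cons, sz_cons]
    generalize l.foldr (LD.app1 u) [] = cur at ih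
    unfold LD.app1
    cases decide (cur = r.1) && (LD.look u r.2.1 == r.2.2.1)
    · rw [cond_false]
      omega
    · rw [cond_true]
      omega

lemma routeLD {f : γ → List LD.Rule} {g : γ → Word} (hf : PT f) (hg : PT g) :
    PT fun c => LD.route (f c) (g c) := by
  refine PT.foldr (f := fun c r cur => LD.app1 (g c) r cur) hf (PT.const []) ?_ ?_
  · have hr : PT fun p : γ × LD.Rule × Word => p.2.1 := PT.fst' PT.snd
    have hcur : PT fun p : γ × LD.Rule × Word => p.2.2 := PT.snd' PT.snd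
    have hu : PT fun p : γ × LD.Rule × Word => g p.1 := hg.comp PT.fst
    exact PT.cond (PT.and (PT.eqWord hcur (PT.fst' hr))
      (PT.beqBool (PT.lookLD hu (PT.fst' (PT.snd' hr))) (PT.fst' (PT.snd' (PT.snd' hr)))))
      (PT.snd' (PT.snd' (PT.snd' hr))) hcur
  · obtain ⟨k, hk⟩ := hf.size_le
    refine ⟨k, fun c l' hl' => ?_⟩
    exact (sz_route_le (g c) l').trans ((sz_suffix_le hl').trans (hk c))

lemma evLD {E : Word × List Bool → Bool} (hE : PT E) {z : γ → List Word} {ρ : γ → LD.Row}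
    (hz : PT z) (hρ : PT ρ) : PT fun c => LD.ev E (z c) (ρ c) := by
  refine hE.comp (PT.pair (PT.fst' hρ) ?_)
  exact PT.map (f := fun c v => LD.mem1 (z c) v) (PT.snd' hρ)
    (PT.mem1LD (hz.comp PT.fst) PT.snd)

lemma matLD {E : Word × List Bool → Bool} (hE : PT E) {N R : γ → ℕ}
    {d : γ → List LD.Row × List (List Word)} (hN : PT N) (hR : PT R) (hd : PT d) :
    PT fun c => LD.mat E (N c) (R c) (d c) := by
  refine PT.flatMap (f := fun c j => (List.range (R c)).map fun i =>
    LD.ev E ((d c).2.getD i []) ((d c).1.getD j ([], []))) (PT.range hN) ?_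
  refine PT.map (f := fun (p : γ × ℕ) i =>
    LD.ev E ((d p.1).2.getD i []) ((d p.1).1.getD p.2 ([], []))) (PT.range (hR.comp PT.fst)) ?_
  have hd' : PT fun q : (γ × ℕ) × ℕ => d q.1.1 := hd.comp (PT.fst' PT.fst)
  exact evLD hE (PT.getLD PT.snd (PT.snd' hd') (PT.const []))
    (PT.getLD (PT.snd' PT.fst) (PT.fst' hd') (PT.const ([], [])))

end Pool.Agent.Lib.MP_634427_lc.PT
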