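import Pool.Agent.Lib.MP_634427_lc.LD.NpA
import Pool.Agent.Lib.MP_634427_lc.LD.NpB
import Pool.Agent.Lib.MP_634427_lc.LD.NpC
import Pool.Agent.Lib.MP_634427_lc.LD.RoutePT

/-!
# The set answering both questions is in NP
-/

namespace Pool.Agent.Lib.MP_634427_lc.LD

open Pool.Agent.Lib.MP_634427_lc

/-- The first questions. -/
private lemma exists_K1 {E : Word × List Bool → Bool} (hE : PT E) :
    ∃ A : Set Word, InNP A ∧ ∀ a : Q1, code (enc a) ∈ A ↔ K1 E a := by
  have hG : PT fun p : Q1 × List Word => p.1.2.all fun q => ev E p.2 q.1 == q.2 :=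
    PT.all (p := fun (p : Q1 × List Word) (q : Row × Bool) => ev E p.2 q.1 == q.2)
      (PT.snd' PT.fst)
      (PT.beqBool (PT.evLD hE (PT.snd' PT.fst) (PT.fst' PT.snd)) (PT.snd' PT.snd))
  obtain ⟨A, hA, h⟩ := np_cert_code (α := Q1) (γ := List Word)
    (Small.hasDec_list (Small.hasDec_list Small.hasDec_bool)) _ (fun a => a.1) hG PT.fst
  refine ⟨A, hA, fun a => (h a).trans ?_⟩
  unfold K1
  simp only [List.all_eq_true, beq_iff_eq]

/-- The representable matrices. -/
private lemma exists_Rep {E : Word × List Bool → Bool} (hE : PT E) :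
    ∃ A : Set Word, InNP A ∧
      ∀ a : Q2, code (enc a) ∈ A ↔ Rep E a.1 a.2.1 a.2.2.1 a.2.2.2 := by
  have hG : PT fun p : Q2 × (List Row × List (List Word)) =>
      decide (mat E p.1.2.1 p.1.2.2.1 p.2 = p.1.2.2.2) :=
    PT.eqWord (PT.matLD hE (PT.fst' (PT.snd' PT.fst)) (PT.fst' (PT.snd' (PT.snd' PT.fst)))
      PT.snd) (PT.snd' (PT.snd' (PT.snd' PT.fst)))
  have hw : Small.HasDec (List Word) :=
    Small.hasDec_list (Small.hasDec_list Small.hasDec_bool)
  obtain ⟨A, hA, h⟩ := np_cert_code (α := Q2) (γ := List Row × List (List Word))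
    (Small.hasDec_prod (Small.hasDec_list (Small.hasDec_prod
      (Small.hasDec_list Small.hasDec_bool) hw)) (Small.hasDec_list hw))
    _ (fun a => a.1) hG PT.fst
  refine ⟨A, hA, fun a => (h a).trans ?_⟩
  unfold Rep
  simp only [decide_eq_true_eq]

/-- The second questions. -/
private lemma exists_K2 (hco : ∀ L : Set Word, InNP L → InNP Lᶜ)
    {E : Word × List Bool → Bool} (hE : PT E) :
    ∃ A : Set Word, InNP A ∧ ∀ a : Q2, code (enc a) ∈ A ↔ K2 E a := by
  obtain ⟨B, hB, h⟩ := exists_Rep hE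
  have hπ : PT fun p : Q2 × Word => p.1.2.2.2 := PT.snd' (PT.snd' (PT.snd' PT.fst))
  have hG : PT fun p : Q2 × Word => decide (p.2.take p.1.2.2.2.length = p.1.2.2.2) :=
    PT.eqWord (PT.take (PT.length hπ) PT.snd) hπ
  have henc : PT fun q : Q2 => (enc q : BT) := ⟨_, .id, fun _ => rfl⟩
  have hg : PT fun p : Q2 × Word => code (enc ((p.1.1, (p.1.2.1, (p.1.2.2.1, p.2))) : Q2)) :=
    PT.code (henc.comp (PT.pair (PT.fst' PT.fst) (PT.pair (PT.fst' (PT.snd' PT.fst))
      (PT.pair (PT.fst' (PT.snd' (PT.snd' PT.fst))) PT.snd))))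
  have hm : PT fun a : Q2 => a.2.1 * a.2.2.1 :=
    PT.mul (PT.fst' (PT.snd' PT.id)) (PT.fst' (PT.snd' (PT.snd' PT.id)))
  obtain ⟨A, hA, h'⟩ := np_ex (α := Q2) Bᶜ (hco B hB) _ _ _ hG hg hm
  refine ⟨A, hA, fun a => (h' a).trans ?_⟩
  unfold K2
  refine exists_congr fun D => and_congr_right fun _ => and_congr ?_ ?_
  · rw [decide_eq_true_eq, List.prefix_iff_eq_take]
    exact eq_comm
  · exact not_congr (h (a.1, (a.2.1, (a.2.2.1, D))))

/-- The set answering both questions. -/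
theorem exists_answers (hco : ∀ L : Set Word, InNP L → InNP Lᶜ) {E : Word × List Bool → Bool}
    (hE : PT E) : ∃ U : Set Word, InNP U ∧ Answers E U := by
  obtain ⟨A, hA, h1⟩ := exists_K1 hE
  obtain ⟨B, hB, h2⟩ := exists_K2 hco hE
  refine ⟨_, np_union hA hB, fun a => ?_, fun a => ?_⟩
  · rw [← h1 a]
    constructor
    · rintro (⟨v, hv, h⟩ | ⟨v, hv, h⟩)
      · have hv' : code (enc a) = v := (List.cons.inj hv).2
        rw [hv']
        exact h
      · exact absurd (List.cons.inj hv).1 Bool.true_eq_false.mp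
    · intro h
      exact Or.inl ⟨_, rfl, h⟩
  · rw [← h2 a]
    constructor
    · rintro (⟨v, hv, h⟩ | ⟨v, hv, h⟩)
      · exact absurd (List.cons.inj hv).1.symm Bool.true_eq_false.mp
      · have hv' : code (enc a) = v := (List.cons.inj hv).2
        rw [hv']
        exact h
    · intro h
      exact Or.inr ⟨_, rfl, h⟩

end Pool.Agent.Lib.MP_634427_lc.LD
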