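import Pool.Agent.Lib.MP_634427_lc.LD.NpB
import Pool.Agent.Lib.MP_634427_lc.LD.RoutePT

/-!
# The set of the questions about the first witness is in NP
-/

namespace Pool.Agent.Lib.MP_634427_lc.LD

open Pool.Agent.Lib.MP_634427_lc

/-- If NP is closed under complements, then the codes of the pairs of a word and a word with no
earlier witness are those in a set in NP. -/
private lemma exists_noEarlier (hco : ∀ L : Set Word, InNP L → InNP Lᶜ)
    {Rel : Word × Word → Bool} {m : Word → ℕ} (hRel : PT Rel) (hm : PT m) :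
    ∃ F : Set Word, InNP F ∧ ∀ y u : Word, code (enc (y, u)) ∈ F ↔
      ∀ w : Word, w.length = m y → Rel (y, w) = true → ¬ Small.Bef w u := by
  let p : (Word × Word) × Word → ℕ → Bool := fun c i =>
    c.1.2.getD i false && decide (c.2.take (i + 1) = c.1.2.take i ++ [false])
  let G : (Word × Word) × Word → Bool := fun c =>
    Rel (c.1.1, c.2) && (List.range c.1.2.length).any (p c)
  have hp : PT fun q : ((Word × Word) × Word) × ℕ => p q.1 q.2 :=
    PT.and (PT.getLD PT.snd (PT.snd' (PT.fst' PT.fst)) (PT.const false))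
      (PT.eqWord (PT.take (PT.succ PT.snd) (PT.snd' PT.fst))
        (PT.append (PT.take PT.snd (PT.snd' (PT.fst' PT.fst))) (PT.const [false])))
  have hG : PT G := PT.and (hRel.comp (PT.pair (PT.fst' PT.fst) PT.snd))
    (PT.any (PT.range (PT.length (PT.snd' PT.fst))) hp)
  have hGB : ∀ y u w, G ((y, u), w) = true ↔ Rel (y, w) = true ∧ Small.Bef w u := by
    intro y u w
    simp only [G, p, Small.Bef, Bool.and_eq_true, List.any_eq_true, List.mem_range,
      decide_eq_true_eq]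
  obtain ⟨B, hB, hB'⟩ := Small.exists_np_code G (fun a => m a.1) hG (hm.comp PT.fst)
  refine ⟨Bᶜ, hco B hB, fun y u => ?_⟩
  rw [Set.mem_compl_iff, hB' (y, u)]
  constructor
  · intro h w hw hR hBf
    exact h ⟨w, hw, (hGB y u w).2 ⟨hR, hBf⟩⟩
  · rintro h ⟨w, hw, hGw⟩
    obtain ⟨h1, h2⟩ := (hGB y u w).1 hGw
    exact h w hw h1 h2

/-- The set of the questions about the first witness. -/
theorem exists_askSet (hco : ∀ L : Set Word, InNP L → InNP Lᶜ) {Rel : Word × Word → Bool}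
    {m : Word → ℕ} (hRel : PT Rel) (hm : PT m) : ∃ A : Set Word, InNP A ∧ AskSet Rel m A := by
  obtain ⟨F, hF, hF'⟩ := exists_noEarlier hco hRel hm
  have henc : PT (fun a : Word × Word => (enc a : BT)) := ⟨_, .id, fun _ => rfl⟩
  have hy : PT fun c : QA × Word => c.1.1 := PT.fst' PT.fst
  have hg : PT fun c : QA × Word => code (enc (c.1.1, c.2)) :=
    PT.code (henc.comp (PT.pair hy PT.snd))
  have hG : PT fun c : QA × Word => Rel (c.1.1, c.2) && mem1 c.1.2.2 (route c.1.2.1 c.2) :=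
    PT.and (hRel.comp (PT.pair hy PT.snd))
      (PT.mem1LD (PT.snd' (PT.snd' PT.fst)) (PT.routeLD (PT.fst' (PT.snd' PT.fst)) PT.snd))
  obtain ⟨A, hA, hA'⟩ := np_ex F hF _ _ (fun a : QA => m a.1) hG hg (hm.comp PT.fst)
  refine ⟨A, hA, fun a => (hA' a).trans ⟨?_, ?_⟩⟩
  · rintro ⟨u, hu, hGu, hgu⟩
    rw [Bool.and_eq_true] at hGu
    exact ⟨u, ⟨hu, hGu.1, (hF' _ _).1 hgu⟩, hGu.2⟩
  · rintro ⟨u, ⟨hu, hR, hfirst⟩, hmem⟩
    refine ⟨u, hu, ?_, (hF' _ _).2 hfirst⟩
    rw [Bool.and_eq_true]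
    exact ⟨hR, hmem⟩

end Pool.Agent.Lib.MP_634427_lc.LD
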