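import Pool.Agent.Lib.MP_634427_lc.LD.ParA
import Pool.Agent.Lib.MP_634427_lc.LD.RecA
import Pool.Agent.Lib.MP_634427_lc.LD.RecB
import Pool.Agent.Lib.MP_634427_lc.LD.RunE
import Pool.Agent.Lib.MP_634427_lc.LD.SetsA
import Pool.Agent.Lib.MP_634427_lc.LD.SetsB

/-!
# Low density and small reductions: P = NP
-/

namespace Pool.Agent.Lib.MP_634427_lc.LD

open Pool.Agent.Lib.MP_634427_lc

/-- Low reductions to a sparse set imply P = NP. -/
theorem inP_of_low {E : Word × List Bool → Bool} (hE : PT E) {q p r : ℕ} (hq : p + r < q)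
    {S : Set Word} (hS : Sparse S) (hard : ∀ A : Set Word, InNP A → LowReducible E q p r A S)
    (L : Set Word) (hL : InNP L) : InP L := by
  have hco : ∀ L : Set Word, InNP L → InNP Lᶜ := by
    refine Small.coNP_of_small (q - 1) S hS fun A hA => ?_
    obtain ⟨f, c, hf, h⟩ := hard A hA
    refine ⟨f, fun e l => E (e, l) = true, c, hf, fun x => ?_, fun x => (h x).2.2⟩
    have h1 := (h x).1
    rw [Nat.sub_add_cancel (by omega)]
    exact h1.trans (Nat.mul_le_mul_left _ (Nat.pow_le_pow_right (by omega) (by omega)))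
  obtain ⟨U, hU, hUA⟩ := exists_answers hco hE
  have key : ∀ B : Set Word, InNP B → ∃ M : Mach St, M.IsPT ∧ M.Solves B U (12 * (q - 1) + 13) := by
    intro B hB
    obtain ⟨Rel, m, hRel, hm, hBR⟩ := Small.exists_rel hB
    obtain ⟨A, hA, hAR⟩ := exists_askSet hco hRel hm
    obtain ⟨f, β, μ, c, hb⟩ := exists_bounds hq (hard A hA)
    obtain ⟨P, hP, hPg⟩ := exists_par hRel hm hBR hAR hb
    exact ⟨P.mach, hP.mach, hPg.solves hP hUA⟩
  obtain ⟨M, hM, hMs⟩ := key U hU
  obtain ⟨M', hM', hMs'⟩ := key L hL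
  exact hMs'.inP hM' (hMs.self hM)

/-- Small reductions to a set of density `n ^ o(1)` imply P = NP. -/
theorem inP_of_thin {E : Word × List Bool → Bool} (hE : PT E) {k : ℕ} {S : Set Word}
    (hS : Thin S) (hard : ∀ A : Set Word, InNP A → SmallReducibleBy E k A S)
    (L : Set Word) (hL : InNP L) : InP L :=
  inP_of_low hE (q := 2 * k + 2) (p := 2 * k) (r := 1) (by omega) (sparse_of_thin hS)
    (fun A hA => low_of_thin hS (hard A hA)) L hL

end Pool.Agent.Lib.MP_634427_lc.LD
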