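import Pool.Agent.Lib.MP_634427_lc.LD.Bits

/-!
# Decision lists name the words of a list
-/

namespace Pool.Agent.Lib.MP_634427_lc.LD

open Pool.Agent.Lib.MP_634427_lc

private lemma tl_self (a : Word) (l : List Word) : tl a (a :: l) = l.length := by
  simp [tl]

private lemma tl_ne {a v : Word} (h : a ≠ v) (l : List Word) : tl v (a :: l) = tl v l := by
  simp [tl, h]

lemma tl_lt {V : List Word} {v : Word} (hv : v ∈ V) : tl v V < V.length := by
  induction V with
  | nil => simp at hv
  | cons a l ih =>
    by_cases h : a = v
    · subst h
      rw [tl_self, List.length_cons]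
      exact Nat.lt_succ_self _
    · rw [tl_ne h, List.length_cons]
      exact Nat.lt_succ_of_lt (ih ((List.mem_cons.1 hv).resolve_left fun e => h e.symm))

private lemma wd_tl {V : List Word} {v : Word} (hv : v ∈ V) : wd (bits (tl v V)) V = v := by
  induction V with
  | nil => simp at hv
  | cons a l ih =>
    by_cases h : a = v
    · subst h
      rw [tl_self, wd, decide_eq_true rfl, cond_true]
    · have hv' : v ∈ l := (List.mem_cons.1 hv).resolve_left fun e => h e.symm
      have h1 : bits l.length ≠ bits (tl v l) := fun e =>
        absurd (bits_injective e) (Nat.ne_of_gt (tl_lt hv'))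
      rw [tl_ne h, wd, decide_eq_false h1, cond_false, ih hv']

private lemma fd_lt_or (v w : Word) : fd v w < v.length ∨ fd v w = 0 := by
  unfold fd
  cases h : (List.range v.length).find? fun p => v.getD p false != w.getD p false with
  | none => exact Or.inr rfl
  | some p => exact Or.inl (List.mem_range.1 (List.mem_of_find?_eq_some h))

private lemma fd_spec {v w : Word} (hl : v.length = w.length) (h : v ≠ w) :
    fd v w < v.length ∧ v.getD (fd v w) false ≠ w.getD (fd v w) false := by
  unfold fd
  cases h1 : (List.range v.length).find? fun p => v.getD p false != w.getD p false with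
  | none =>
    exfalso
    apply h
    rw [List.find?_eq_none] at h1
    apply List.ext_getElem hl
    intro i hi hi'
    have h2 := h1 i (List.mem_range.2 hi)
    rw [bne_iff_ne, ne_eq, not_not] at h2
    rwa [List.getD_eq_getElem _ _ hi, List.getD_eq_getElem _ _ hi'] at h2
  | some p =>
    refine ⟨List.mem_range.1 (List.mem_of_find?_eq_some h1), ?_⟩
    have h2 := List.find?_some h1
    exact bne_iff_ne.1 h2

private lemma route_cons (v : Word) (l : List Word) (u : Word) :
    route (mk (v :: l)) u = app1 u (route (mk l) v, (bits (fd v (wd (route (mk l) v) l)),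
      (v.getD (fd v (wd (route (mk l) v) l)) false, bits l.length))) (route (mk l) u) := rfl

private lemma route_cons_or (v : Word) (l : List Word) (u : Word) :
    route (mk (v :: l)) u = route (mk l) u ∨ route (mk (v :: l)) u = bits l.length := by
  rw [route_cons, app1]
  cases (decide (route (mk l) u = route (mk l) v) &&
    (look u (bits (fd v (wd (route (mk l) v) l))) ==
      v.getD (fd v (wd (route (mk l) v) l)) false)) with
  | false => exact Or.inl rfl
  | true => exact Or.inr rfl

private lemma route_single (v u : Word) : route (mk [v]) u = [] := by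
  rcases route_cons_or v [] u with h | h
  · exact h
  · exact h

private lemma look_take {p : ℕ} {v u : Word} (hp : p < v.length) (hu : v <+: u) :
    look u (bits p) = v.getD p false := by
  have h1 : p < u.length := lt_of_lt_of_le hp hu.length_le
  rw [look_bits h1]
  obtain ⟨t, rfl⟩ := hu
  rw [List.getD_append _ _ _ _ hp]

private lemma route_prefix {ℓ : ℕ} (hℓ0 : 0 < ℓ) {V : List Word} (hℓ : ∀ v ∈ V, v.length = ℓ)
    {v u : Word} (hv : v.length = ℓ) (hu : v <+: u) : route (mk V) u = route (mk V) v := by
  induction V with
  | nil => rfl
  | cons a l ih =>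
    have ih' := ih fun w hw => hℓ w (List.mem_cons_of_mem _ hw)
    have ha : a.length = ℓ := hℓ a List.mem_cons_self
    have hp : fd a (wd (route (mk l) a) l) < v.length := by
      rcases fd_lt_or a (wd (route (mk l) a) l) with h | h <;> omega
    rw [route_cons, route_cons, ih', app1, app1]
    simp only
    rw [look_take hp hu, look_take hp (List.prefix_refl v)]

/-- The name of the words with the prefix `v`. -/
theorem route_mk {ℓ : ℕ} {V : List Word} (hV : V.Nodup) (hℓ : ∀ v ∈ V, v.length = ℓ) {v u : Word}
    (hv : v ∈ V) (hu : v <+: u) : route (mk V) u = bits (tl v V) := by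
  induction V with
  | nil => simp at hv
  | cons a l ih =>
    obtain ⟨hal, hl⟩ := List.nodup_cons.1 hV
    have hℓ' : ∀ w ∈ l, w.length = ℓ := fun w hw => hℓ w (List.mem_cons_of_mem _ hw)
    have ha : a.length = ℓ := hℓ a List.mem_cons_self
    by_cases h : a = v
    · subst h
      rw [tl_self]
      rcases l with _ | ⟨b, l⟩
      · rw [route_single]
        rfl
      · have hb : b.length = ℓ := hℓ' b List.mem_cons_self
        have hab : a ≠ b := fun e => hal (e ▸ List.mem_cons_self)
        have hℓ0 : 0 < ℓ := by
          rcases Nat.eq_zero_or_pos ℓ with h0 | h0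
          · exfalso
            rw [h0, List.length_eq_zero_iff] at ha hb
            exact hab (ha.trans hb.symm)
          · exact h0
        have hp : fd a (wd (route (mk (b :: l)) a) (b :: l)) < a.length := by
          rcases fd_lt_or a (wd (route (mk (b :: l)) a) (b :: l)) with h | h <;> omega
        rw [route_cons, route_prefix hℓ0 hℓ' ha hu, app1]
        dsimp only
        rw [look_take hp hu, decide_eq_true rfl, beq_self_eq_true, Bool.and_self,
          cond_true]
    · have hv' : v ∈ l := (List.mem_cons.1 hv).resolve_left fun e => h e.symm
      have h1 := ih hl hℓ' hv'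
      rw [tl_ne h, route_cons, h1, app1]
      simp only
      by_cases h2 : bits (tl v l) = route (mk l) a
      · have h3 : wd (route (mk l) a) l = v := by rw [← h2, wd_tl hv']
        have h4 := fd_spec (v := a) (w := v) (by rw [ha, hℓ' v hv']) h
        rw [h3]
        have h5 : fd a v < v.length := by rw [hℓ' v hv', ← ha]; exact h4.1
        have h6 : (look u (bits (fd a v)) == a.getD (fd a v) false) = false := by
          rw [look_take h5 hu]
          exact beq_eq_false_iff_ne.2 (fun e => h4.2 e.symm)
        rw [h6, Bool.and_false, cond_false]
      · rw [decide_eq_false h2, Bool.false_and, cond_false]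

private lemma cand_cons_lt (a : Word) {l : List Word} {i : ℕ} (hi : i < l.length) :
    cand (a :: l) i = cand l i := by
  rw [cand, cand, List.reverse_cons, List.getD_append _ _ _ _ (by simpa using hi)]

private lemma cand_cons_eq (a : Word) (l : List Word) : cand (a :: l) l.length = a := by
  rw [cand, List.reverse_cons, List.getD_append_right _ _ _ _ (by simp)]
  simp

lemma cand_mem {V : List Word} {i : ℕ} (hi : i < V.length) : cand V i ∈ V := by
  have h : i < V.reverse.length := by simpa using hi
  rw [cand, List.getD_eq_getElem _ _ h]
  exact List.mem_reverse.1 (List.getElem_mem h)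

lemma tl_cand {V : List Word} (hV : V.Nodup) {i : ℕ} (hi : i < V.length) :
    tl (cand V i) V = i := by
  induction V with
  | nil => simp at hi
  | cons a l ih =>
    obtain ⟨hal, hl⟩ := List.nodup_cons.1 hV
    rw [List.length_cons] at hi
    rcases Nat.lt_or_ge i l.length with h | h
    · have h2 : a ≠ cand l i := fun e => hal (by rw [e]; exact cand_mem h)
      rw [cand_cons_lt a h, tl_ne h2, ih hl h]
    · have h1 : i = l.length := by omega
      subst h1
      rw [cand_cons_eq, tl_self]

/-- The words with the prefix `cand V i` have the name `bits i`. -/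
theorem route_cand {ℓ : ℕ} {V : List Word} (hV : V.Nodup) (hℓ : ∀ v ∈ V, v.length = ℓ) {u : Word}
    {i : ℕ} (hi : i < V.length) (hu : cand V i <+: u) : route (mk V) u = bits i := by
  rw [route_mk hV hℓ (cand_mem hi) hu, tl_cand hV hi]

private lemma length_route_le {t : ℕ} (V : List Word) (u : Word) (hV : V.length ≤ 2 ^ t) :
    (route (mk V) u).length ≤ t := by
  induction V with
  | nil => exact Nat.zero_le _
  | cons a l ih =>
    rw [List.length_cons] at hV
    rcases route_cons_or a l u with h | h
    · rw [h]
      exact ih (by omega)
    · rw [h]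
      exact length_bits_le (by omega)

/-- The size of the decision list. -/
lemma sz_mk_le {ℓ t : ℕ} (V : List Word) (hℓ : ∀ v ∈ V, v.length ≤ ℓ) (hbℓ : ℓ < 2 ^ t)
    (hV : V.length < 2 ^ t) : sz (mk V) ≤ V.length * (6 * t + 5) := by
  induction V with
  | nil => simp [mk]
  | cons a l ih =>
    have ih' := ih (fun w hw => hℓ w (List.mem_cons_of_mem _ hw))
      (lt_of_le_of_lt (by simp) hV)
    have ha : a.length ≤ ℓ := hℓ a List.mem_cons_self
    rw [List.length_cons] at hV
    rw [mk, sz_cons, sz_pair, sz_pair, sz_pair, List.length_cons]
    have h1 := sz_word_le (route (mk l) a)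
    have h1' := length_route_le (t := t) l a (by omega)
    have h2 := sz_word_le (bits (fd a (wd (route (mk l) a) l)))
    have h2' : (bits (fd a (wd (route (mk l) a) l))).length ≤ t := by
      apply length_bits_le
      rcases fd_lt_or a (wd (route (mk l) a) l) with h | h <;> omega
    have h3 := sz_bool_le (a.getD (fd a (wd (route (mk l) a) l)) false)
    have h4 := sz_word_le (bits l.length)
    have h4' : (bits l.length).length ≤ t := length_bits_le (by omega)
    have h5 : (l.length + 1) * (6 * t + 5) = l.length * (6 * t + 5) + (6 * t + 5) := by ring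
    rw [h5]
    omega

end Pool.Agent.Lib.MP_634427_lc.LD
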