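import Pool.Agent.Lib.MP_634427_lc.LD.RoutePT
import Pool.Agent.Lib.MP_634427_lc.LD.Rules

/-!
# The decision list of a list in polynomial time
-/

namespace Pool.Agent.Lib.MP_634427_lc.PT

variable {γ : Type} [Enc γ]

private lemma wd_lrec (ν : Word) (l : List Word) :
    lrec ([] : Word) (fun a t r => bif decide (LD.bits t.length = ν) then a else r) l
      = LD.wd ν l := by
  induction l with
  | nil => rfl
  | cons a l ih => simp only [lrec, LD.wd, ih]

private lemma sz_wd_le (ν : Word) (l : List Word) : sz (LD.wd ν l) ≤ sz l := by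
  induction l with
  | nil => simp [LD.wd]
  | cons a l ih =>
    simp only [LD.wd, sz_cons]
    cases decide (LD.bits l.length = ν)
    · simp only [cond_false]; omega
    · simp only [cond_true]; omega

private lemma wdLD {f : γ → Word} {g : γ → List Word} (hf : PT f) (hg : PT g) :
    PT fun c => LD.wd (f c) (g c) := by
  have h := listRec (s := fun _ : γ => ([] : Word))
    (f := fun c a (t : List Word) (r : Word) => bif decide (LD.bits t.length = f c) then a else r)
    hg (const [])
    (cond (eqWord (bitsLD (length (fst' (snd' snd)))) (hf.comp fst)) (fst' snd)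
      (snd' (snd' snd))) (by
      obtain ⟨k, hk⟩ := hg.size_le
      refine ⟨k, fun c l' hl' => ?_⟩
      rw [wd_lrec]
      exact (sz_wd_le _ _).trans ((sz_suffix_le hl').trans (hk c)))
  exact h.of_eq fun c => wd_lrec _ _

private lemma fdLD {f g : γ → Word} (hf : PT f) (hg : PT g) :
    PT fun c => LD.fd (f c) (g c) := by
  have hp : PT fun q : γ × ℕ => ((f q.1).getD q.2 false != (g q.1).getD q.2 false) :=
    bne (getLD snd (hf.comp fst) (const false)) (getLD snd (hg.comp fst) (const false))
  exact getD (find? (p := fun c p => (f c).getD p false != (g c).getD p false)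
    (range (length hf)) hp) (const 0)

private lemma fd_le (v w : Word) : LD.fd v w ≤ v.length := by
  unfold LD.fd
  rcases h : (List.range v.length).find? fun p => v.getD p false != w.getD p false with _ | p
  · simp
  · have := List.mem_of_find?_eq_some h
    rw [List.mem_range] at this
    simpa using this.le

/-- The first rule of the decision list of `v :: l` when `r` is the decision list of `l`. -/
private def hd (v : Word) (l : List Word) (r : List LD.Rule) : LD.Rule :=
  (LD.route r v, (LD.bits (LD.fd v (LD.wd (LD.route r v) l)),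
    (v.getD (LD.fd v (LD.wd (LD.route r v) l)) false, LD.bits l.length)))

private lemma mk_lrec (V : List Word) :
    lrec ([] : List LD.Rule) (fun v l r => hd v l r :: r) V = LD.mk V := by
  induction V with
  | nil => rfl
  | cons a l ih =>
    simp only [lrec, LD.mk, ih]
    rfl

private lemma sz_bits_le (n : ℕ) : sz (LD.bits n) ≤ 2 * n :=
  (sz_word_le _).trans (Nat.mul_le_mul_left 2 (LD.length_bits_le' n))

private lemma sz_route_le {n : ℕ} (rs : List LD.Rule) (u : Word)
    (h : ∀ r ∈ rs, sz r.2.2.2 ≤ n) : sz (LD.route rs u) ≤ n := by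
  induction rs with
  | nil => simp [LD.route]
  | cons r rs ih =>
    have h1 := ih fun r' hr' => h r' (List.mem_cons_of_mem _ hr')
    have h2 := h r List.mem_cons_self
    show sz (LD.app1 u r (LD.route rs u)) ≤ n
    unfold LD.app1
    cases decide (LD.route rs u = r.1) && (LD.look u r.2.1 == r.2.2.1)
    · exact h1
    · exact h2

private lemma names_mk (V : List Word) : ∀ r ∈ LD.mk V, sz r.2.2.2 ≤ 2 * V.length := by
  induction V with
  | nil => intro r hr; simp [LD.mk] at hr
  | cons v l ih =>
    intro r hr
    rw [LD.mk, List.mem_cons] at hr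
    rcases hr with rfl | hr
    · have := sz_bits_le l.length
      simp only [List.length_cons]
      omega
    · have := ih r hr
      simp only [List.length_cons]
      omega

private lemma sz_mk_le' (V : List Word) : sz (LD.mk V) ≤ V.length * (6 * sz V + 5) := by
  induction V with
  | nil => simp [LD.mk]
  | cons v l ih =>
    have h1 := sz_route_le (LD.mk l) v (names_mk l)
    have h2 := sz_bits_le (LD.fd v (LD.wd (LD.route (LD.mk l) v) l))
    have h3 := fd_le v (LD.wd (LD.route (LD.mk l) v) l)
    have h4 := sz_bits_le l.length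
    have h5 := sz_bool_le (v.getD (LD.fd v (LD.wd (LD.route (LD.mk l) v) l)) false)
    have h6 := length_le_sz l
    have h7 := length_le_sz v
    have h8 : l.length * (6 * sz l + 5) ≤ l.length * (6 * sz (v :: l) + 5) :=
      Nat.mul_le_mul_left _ (by rw [sz_cons]; omega)
    rw [LD.mk, sz_cons, List.length_cons, Nat.succ_mul]
    simp only [sz_pair]
    have h9 : sz (v :: l) = sz v + sz l + 1 := sz_cons v l
    omega

lemma mkLD {f : γ → List Word} (hf : PT f) : PT fun c => LD.mk (f c) := by
  have hr : PT fun p : γ × Word × List Word × List LD.Rule => LD.route p.2.2.2 p.2.1 :=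
    routeLD (snd' (snd' snd)) (fst' snd)
  have hd1 : PT fun p : γ × Word × List Word × List LD.Rule =>
      LD.fd p.2.1 (LD.wd (LD.route p.2.2.2 p.2.1) p.2.2.1) :=
    fdLD (fst' snd) (wdLD hr (fst' (snd' snd)))
  have hstep : PT fun p : γ × Word × List Word × List LD.Rule =>
      hd p.2.1 p.2.2.1 p.2.2.2 :: p.2.2.2 :=
    cons (pair hr (pair (bitsLD hd1) (pair (getLD hd1 (fst' snd) (const false))
      (bitsLD (length (fst' (snd' snd))))))) (snd' (snd' snd))
  have h := listRec (s := fun _ : γ => ([] : List LD.Rule))
    (f := fun _ v l r => hd v l r :: r) hf (const []) hstep (by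
      obtain ⟨k, hk⟩ := hf.size_le
      obtain ⟨e, he⟩ := PB.mul (F := fun n => (n + 2) ^ k) (G := fun n => 6 * (n + 2) ^ k + 5)
        ⟨k, fun n => le_rfl⟩ (PB.add (PB.mul (PB.const 6) ⟨k, fun n => le_rfl⟩) (PB.const 5))
      refine ⟨e, fun c l' hl' => ?_⟩
      rw [mk_lrec]
      have h1 := (sz_suffix_le hl').trans (hk c)
      refine (sz_mk_le' l').trans (le_trans ?_ (he (sz c)))
      exact Nat.mul_le_mul ((length_le_sz l').trans h1) (by omega))
  exact h.of_eq fun c => mk_lrec _

end Pool.Agent.Lib.MP_634427_lc.PT
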