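import Pool.Agent.Lib.MP_634427_lc.Small.Model

/-!
# Small reductions with a fixed rule, sets of low density
-/

namespace Pool.Agent.Lib.MP_634427_lc

/-- `A` is reducible to `S` with the rule `E` and the exponents `p / q`, `r / q`: in polynomial
time one computes from `x` a word `e` and a list of queries, and `x` is in `A` iff the rule `E` is
true for `e` and the answers of the oracle `S`. The length `|e|` plus the number of the queries is
`O(|x| ^ (p / q))`, and `S` has `O(|x| ^ (r / q))` words of length at most the length of the longest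
query (the queries may have any polynomial length). -/
def LowReducible (E : Word × List Bool → Bool) (q p r : ℕ) (A S : Set Word) : Prop :=
  ∃ (f : Word → Word × List Word) (c : ℕ), PT f ∧ ∀ x,
    ((f x).1.length + (f x).2.length) ^ q ≤ c * (x.length + 1) ^ p ∧
    (∀ w ∈ (f x).2, {v ∈ S | v.length ≤ w.length}.ncard ^ q ≤ c * (x.length + 1) ^ r) ∧
    (x ∈ A ↔ E ((f x).1, answerList S (f x).2) = true)

/-- `A` is reducible to `S` with the rule `E`: as `LowReducible`, without the condition on `S`. -/
def SmallReducibleBy (E : Word × List Bool → Bool) (k : ℕ) (A S : Set Word) : Prop :=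
  ∃ (f : Word → Word × List Word) (c : ℕ), PT f ∧ ∀ x,
    ((f x).1.length + (f x).2.length) ^ (k + 1) ≤ c * (x.length + 1) ^ k ∧
    (x ∈ A ↔ E ((f x).1, answerList S (f x).2) = true)

/-- `S` has density `n ^ o(1)`: for each `j` it has `O(n ^ (1 / j))` words of length at most
`n`. -/
def Thin (S : Set Word) : Prop :=
  ∀ j : ℕ, ∃ c : ℕ, ∀ n, {w ∈ S | w.length ≤ n}.ncard ^ j ≤ c * (n + 1)

end Pool.Agent.Lib.MP_634427_lc
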