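import Pool.Agent.Lib.MP_634427_lc.LD.Defs

/-!
# Certificates of bounded size
-/

namespace Pool.Agent.Lib.MP_634427_lc.LD

open Pool.Agent.Lib.MP_634427_lc

/-- Decoding ignores what comes after a code. -/
private lemma decode_code_append (t : BT) (w : Word) : decode (code t ++ w) = t := by
  simp only [decode, List.foldr_append, foldr_code]
  rfl

/-- Questions about the existence of an object of bounded size form a set in NP of codes. -/
theorem np_cert_code {α γ : Type} [Enc α] [Enc γ] (hdec : Small.HasDec γ) (G : α × γ → Bool)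
    (s : α → ℕ) (hG : PT G) (hs : PT s) :
    ∃ A : Set Word, InNP A ∧ ∀ a, code (enc a) ∈ A ↔ ∃ c : γ, sz c ≤ s a ∧ G (a, c) = true := by
  obtain ⟨d, hd, hda⟩ := hdec
  let G' : α × Word → Bool := fun p =>
    decide (sz (d (decode p.2)) ≤ s p.1) && G (p.1, d (decode p.2))
  have hdd : PT fun p : α × Word => d (decode p.2) := hd.comp (PT.decode PT.snd)
  have hG' : PT G' := PT.and (PT.le (PT.size hdd) (hs.comp PT.fst))
    (hG.comp (PT.pair PT.fst hdd))
  obtain ⟨A, hA, hA'⟩ := Small.exists_np_code G' (fun a => 2 * s a + 1) hG'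
    (PT.succ (PT.mul (PT.const 2) hs))
  refine ⟨A, hA, fun a => (hA' a).trans ⟨?_, ?_⟩⟩
  · rintro ⟨u, -, hu⟩
    simp only [G', Bool.and_eq_true, decide_eq_true_eq] at hu
    exact ⟨_, hu.1, hu.2⟩
  · rintro ⟨c, h1, h2⟩
    have h3 : (code (enc c)).length = 2 * sz c + 1 := length_code _
    refine ⟨code (enc c) ++ List.replicate (2 * s a + 1 - (code (enc c)).length) false, ?_, ?_⟩
    · rw [List.length_append, List.length_replicate, h3]
      omega
    · simp only [G', decode_code_append, hda, Bool.and_eq_true, decide_eq_true_eq]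
      exact ⟨h1, h2⟩

end Pool.Agent.Lib.MP_634427_lc.LD
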