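import Pool.Agent.Lib.MP_634427_lc.LD.Bits

/-!
# Auxiliary facts for the test
-/

namespace Pool.Agent.Lib.MP_634427_lc.LD

open Pool.Agent.Lib.MP_634427_lc

lemma First.unique {Rel : Word × Word → Bool} {m : Word → ℕ} {y u u' : Word}
    (h : First Rel m y u) (h' : First Rel m y u') : u = u' := by
  rcases Small.bef_total (u := u) (u' := u') (h.1.trans h'.1.symm) with h1 | h1 | h1
  · exact h1
  · exact absurd h1 (h'.2.2 u h.1 h.2.1)
  · exact absurd h1 (h.2.2 u' h'.1 h'.2.1)

/-- The number of the words of `S` in a list. -/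
lemma exists_dedup {S : Set Word} {P : List Word} {M : ℕ}
    (hM : ∀ w ∈ P, {v ∈ S | v.length ≤ w.length}.ncard ≤ M) :
    ∃ z : List Word, z.length ≤ M ∧ ∀ v, v ∈ z ↔ v ∈ P ∧ v ∈ S := by
  classical
  refine ⟨(P.filter fun v => decide (v ∈ S)).dedup, ?_, fun v => by
    rw [List.mem_dedup, List.mem_filter, decide_eq_true_eq]⟩
  rcases (P.filter fun v => decide (v ∈ S)).toFinset.eq_empty_or_nonempty with h | h
  · rw [← List.card_toFinset, h]
    exact Nat.zero_le _
  · obtain ⟨w, hw, hmax⟩ := Finset.exists_max_image _ List.length h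
    rw [List.mem_toFinset, List.mem_filter, decide_eq_true_eq] at hw
    refine le_trans ?_ (hM w hw.1)
    rw [← List.card_toFinset, ← Set.ncard_coe_finset]
    refine Set.ncard_le_ncard (fun v hv => ?_)
      ((List.finite_length_le Bool w.length).subset fun v hv => hv.2)
    have hv' := Finset.mem_coe.1 hv
    have h1 := hmax v hv'
    rw [List.mem_toFinset, List.mem_filter, decide_eq_true_eq] at hv'
    exact ⟨hv'.2, h1⟩

lemma mem1_names {R j i : ℕ} {D : Word} (hi : i < R) :
    mem1 (names R j D) (bits i) = D.getD (j * R + i) false := by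
  rw [Bool.eq_iff_iff, mem1_iff, names, List.mem_map]
  constructor
  · rintro ⟨k, hk, hki⟩
    rw [List.mem_filter] at hk
    rw [← bits_injective hki]
    exact hk.2
  · intro h
    exact ⟨i, List.mem_filter.2 ⟨List.mem_range.2 hi, h⟩, rfl⟩

end Pool.Agent.Lib.MP_634427_lc.LD
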