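import Pool.Agent.Lib.MP_634427_lc.LD.Defs

/-!
# What is needed of the parameters
-/

namespace Pool.Agent.Lib.MP_634427_lc.LD

open Pool.Agent.Lib.MP_634427_lc

/-- What is needed of the parameters. -/
structure Par.Good (P : Par) (E : Word × List Bool → Bool) (B : Set Word) (K : ℕ) : Prop where
  rel : ∀ y, y ∈ B ↔ ∃ w : Word, w.length = P.m y ∧ P.Rel (y, w) = true
  tab : ∀ y, y.length < P.n0 → (P.tab y = true ↔ y ∈ B)
  one : ∀ y : Word, P.n0 ≤ y.length → 1 ≤ P.R y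
  rep : ∀ y : Word, P.n0 ≤ y.length →
    ∃ D : Word, D.length = P.N y * P.R y ∧ ¬ Rep E (P.s y) (P.N y) (P.R y) D
  fail : ∀ (y : Word) (V : List Word) (D : Word) (ℓ : ℕ), P.n0 ≤ y.length → V.length = P.R y →
    V.Nodup → ℓ ≤ P.m y → (∀ v ∈ V, v.length = ℓ) → D.length = P.N y * P.R y →
    ¬ Rep E (P.s y) (P.N y) (P.R y) D →
    ∃ i < P.R y, ¬ K1 E (q1 P.f y V (P.N y) (P.R y) (P.s1 y) D i)
  pass : ∀ (y : Word) (V : List Word) (D : Word) (ℓ : ℕ), P.n0 ≤ y.length → V.length = P.R y →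
    V.Nodup → ℓ ≤ P.m y → (∀ v ∈ V, v.length = ℓ) → D.length = P.N y * P.R y →
    ∀ i < P.R y, ∀ u, First P.Rel P.m y u → cand V i <+: u →
      K1 E (q1 P.f y V (P.N y) (P.R y) (P.s1 y) D i)
  len2 : ∀ (y π : Word), P.n0 ≤ y.length → π.length ≤ P.N y * P.R y →
    ((w2 (P.s y, (P.N y, (P.R y, π)))).length + 2) ^ (K + 1) ≤ (y.length + 2) ^ K
  len1 : ∀ (y : Word) (V : List Word) (D : Word) (i : ℕ), P.n0 ≤ y.length →
    V.length ≤ P.R y → (∀ v ∈ V, v.length ≤ P.m y) → D.length = P.N y * P.R y →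
    ((w1 (q1 P.f y V (P.N y) (P.R y) (P.s1 y) D i)).length + 2) ^ (K + 1) ≤ (y.length + 2) ^ K

/-- A word can be extended to a matrix which is not given by few words. -/
def Ext (P : Par) (E : Word × List Bool → Bool) (y π : Word) : Prop :=
  ∃ D : Word, D.length = P.N y * P.R y ∧ π <+: D ∧ ¬ Rep E (P.s y) (P.N y) (P.R y) D

open Classical in
/-- The answers of a block. -/
noncomputable def ans (P : Par) (E : Word × List Bool → Bool) (y D : Word) (V : List Word)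
    (n : ℕ) : Word :=
  (List.range n).map fun i =>
    decide (K1 E (q1 P.f y V (P.N y) (P.R y) (P.s1 y) D i))

/-- The states of the run with `c` remaining questions. -/
def Reach (P : Par) (y : Word) (c : ℕ) (s : St) : Prop :=
  s.1 = y ∧ s.2.1.length ≤ P.N y * P.R y ∧ s.2.2.1.length ≤ 2 * P.R y ∧
    (∀ v ∈ s.2.2.1, v.length ≤ P.m y) ∧ s.2.2.2.1.length ≤ P.R y ∧ s.2.2.2.2 = c

end Pool.Agent.Lib.MP_634427_lc.LD
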