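import Pool.Agent.Lib.MP_634427_lc.LD.Model
import Pool.Agent.Lib.MP_634427_lc.LD.Defs

/-!
# Sets of low density, tables
-/

namespace Pool.Agent.Lib.MP_634427_lc.LD

open Pool.Agent.Lib.MP_634427_lc

/-- There are finitely many words of length less than `n`. -/
private lemma finite_short (n : ℕ) : {y : Word | y.length < n}.Finite :=
  List.finite_length_lt Bool n

/-- Each finite part of a set is given by a table. -/
lemma exists_tab (B : Set Word) (n : ℕ) :
    ∃ g : Word → Bool, PT g ∧ ∀ y : Word, y.length < n → (g y = true ↔ y ∈ B) := by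
  classical
  have hfin : {y : Word | y ∈ B ∧ y.length < n}.Finite :=
    (finite_short n).subset fun y hy => hy.2
  refine ⟨fun y => hfin.toFinset.toList.any fun w => decide (w = y), ?_, fun y hy => ?_⟩
  · exact PT.any (p := fun (y : Word) (w : Word) => decide (w = y))
      (PT.const hfin.toFinset.toList) (PT.eqDec enc_word_injective PT.snd PT.fst)
  · simp only [List.any_eq_true, Finset.mem_toList, Set.Finite.mem_toFinset, Set.mem_ofPred_eq,
      decide_eq_true_eq]
    constructor
    · rintro ⟨w, hw, rfl⟩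
      exact hw.1
    · intro h
      exact ⟨y, ⟨h, hy⟩, rfl⟩

/-- A set of density `n ^ o(1)` is sparse. -/
lemma sparse_of_thin {S : Set Word} (h : Thin S) : Sparse S := by
  obtain ⟨c, hc⟩ := h 1
  refine ⟨2 * c + 2, fun n => (by simpa using hc n : _ ≤ c * (n + 1)).trans ?_⟩
  rcases Nat.eq_zero_or_pos n with rfl | hn
  · simp
    omega
  · rcases Nat.lt_or_ge n 2 with h1 | h1
    · have : n = 1 := by omega
      subst this
      simp
      omega
    · have h2 : c + 2 ≤ n ^ (2 * c + 1) := by
        calc c + 2 ≤ 2 ^ (2 * c + 1) := by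
              have := Nat.lt_two_pow_self (n := c + 1)
              have h3 : 2 ^ (c + 1) ≤ 2 ^ (2 * c + 1) := Nat.pow_le_pow_right (by omega) (by omega)
              omega
          _ ≤ n ^ (2 * c + 1) := Nat.pow_le_pow_left h1 _
      have h3 : n ^ (2 * c + 2) = n ^ (2 * c + 1) * n := by rw [pow_succ]
      rw [h3]
      nlinarith [Nat.mul_le_mul_right n h2]

/-- Small reductions to sets of density `n ^ o(1)` are low. -/
lemma low_of_thin {E : Word × List Bool → Bool} {k : ℕ} {A S : Set Word} (hS : Thin S)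
    (h : SmallReducibleBy E k A S) : LowReducible E (2 * k + 2) (2 * k) 1 A S := by
  obtain ⟨f, c, hf, hc⟩ := h
  obtain ⟨cf, hcf⟩ := hf.size_le
  obtain ⟨c1, hc1⟩ := hS ((2 * k + 2) * (cf + 1))
  refine ⟨f, c ^ 2 + 3 * (c1 + 1), hf, fun x => ⟨?_, fun w hw => ?_, (hc x).2⟩⟩
  · have h1 := Nat.pow_le_pow_left (hc x).1 2
    rw [← pow_mul, mul_pow, ← pow_mul] at h1
    have e1 : (k + 1) * 2 = 2 * k + 2 := by ring
    have e2 : k * 2 = 2 * k := by ring
    rw [e1, e2] at h1
    exact h1.trans (Nat.mul_le_mul_right _ (by omega))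
  · have hw1 : w.length ≤ (2 * x.length + 2) ^ cf := by
      have h1 := length_le_sz w
      have h2 := sz_mem_le hw
      have h3 := hcf x
      have h4 := sz_word_le x
      rw [sz_prod] at h3
      have h5 : (sz x + 2) ^ cf ≤ (2 * x.length + 2) ^ cf := Nat.pow_le_pow_left (by omega) cf
      omega
    set N := {v ∈ S | v.length ≤ w.length}.ncard with hN
    have h1 : N ^ ((2 * k + 2) * (cf + 1)) ≤ c1 * (w.length + 1) := hc1 w.length
    set X := x.length + 1 with hX
    have h2 : w.length + 1 ≤ (3 * X) ^ (cf + 1) := by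
      have h3 : 1 ≤ X := by omega
      have h4 : (2 * x.length + 2) ^ cf ≤ (3 * X) ^ cf := Nat.pow_le_pow_left (by omega) cf
      have h5 : 1 ≤ (3 * X) ^ cf := Nat.one_le_pow _ _ (by omega)
      rw [pow_succ]
      nlinarith
    have h3 : (N ^ (2 * k + 2)) ^ (cf + 1) ≤ ((c1 + 1) * (3 * X)) ^ (cf + 1) := by
      rw [← pow_mul, mul_pow]
      refine h1.trans (Nat.mul_le_mul ?_ h2)
      calc c1 ≤ c1 + 1 := by omega
        _ ≤ (c1 + 1) ^ (cf + 1) := Nat.le_self_pow (by omega) _
    have h4 : N ^ (2 * k + 2) ≤ (c1 + 1) * (3 * X) :=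
      le_of_pow_le_pow_left₀ (by omega) (Nat.zero_le _) h3
    rw [pow_one]
    refine h4.trans ?_
    have h5 : (c1 + 1) * (3 * X) = (3 * (c1 + 1)) * X := by ring
    rw [h5]
    exact Nat.mul_le_mul_right _ (by omega)

end Pool.Agent.Lib.MP_634427_lc.LD
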