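import Pool.Agent.Lib.MP_634427_lc.LD.Arith
import Pool.Agent.Lib.MP_634427_lc.LD.Pass
import Pool.Agent.Lib.MP_634427_lc.LD.Fail
import Pool.Agent.Lib.MP_634427_lc.LD.Count
import Pool.Agent.Lib.MP_634427_lc.LD.Bnd
import Pool.Agent.Lib.MP_634427_lc.LD.ThinA
import Pool.Agent.Lib.MP_634427_lc.LD.RunDefs
import Pool.Agent.Lib.MP_634427_lc.LD.MachPT

/-!
# The parameters for a set in NP
-/

namespace Pool.Agent.Lib.MP_634427_lc.LD

open Pool.Agent.Lib.MP_634427_lc

lemma pt_root (D : ℕ) {γ : Type} [Enc γ] {n : γ → ℕ} (hn : PT n) : PT fun c => root D (n c) := by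
  have h := PT.findGreatest (p := fun (c : γ) t => decide (t ^ D ≤ n c)) (n := n)
    (PT.le (PT.pow PT.snd D) (hn.comp PT.fst)) hn
  refine h.of_eq fun c => ?_
  simp only [root, decide_eq_true_eq]

private lemma length_rows (f : Word → Word × List Word) (y : Word) (V : List Word) (N R : ℕ)
    (D : Word) : (rows f y V N R D).length = N := by
  simp [rows]

private lemma length_pool_le {l : List Row} {b : ℕ} (h : ∀ ρ ∈ l, ρ.2.length ≤ b) :
    (pool l).length ≤ l.length * b := by
  induction l with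
  | nil => simp [pool]
  | cons a l ih =>
    have h1 := h a List.mem_cons_self
    have h2 := ih fun ρ hρ => h ρ (List.mem_cons_of_mem _ hρ)
    simp only [pool, List.flatMap_cons, List.length_append, List.length_cons] at h2 ⊢
    rw [Nat.succ_mul]
    omega

/-- The parameters for a set in NP. -/
theorem exists_par {E : Word × List Bool → Bool} {k : ℕ} {S B A : Set Word}
    {Rel : Word × Word → Bool} {m : Word → ℕ} (hRel : PT Rel) (hm : PT m)
    (hB : ∀ y, y ∈ B ↔ ∃ w : Word, w.length = m y ∧ Rel (y, w) = true) (hA : AskSet Rel m A)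
    {f : Word → Word × List Word} {β μ : ℕ → ℕ} {c : ℕ} (h : Bounds E k A S f β μ c) :
    ∃ P : Par, P.IsPT ∧ P.Good E B (12 * k + 13) := by
  obtain ⟨cm, hcm⟩ := hm.size_le
  have hmle : ∀ y : Word, m y ≤ (y.length + 2) ^ (2 * cm) := by
    intro y
    have h1 := hcm y
    rw [sz_nat] at h1
    have h2 := sz_word_le y
    rw [pow_mul]
    exact h1.trans (Nat.pow_le_pow_left (by nlinarith) cm)
  obtain ⟨n0, hn0⟩ := arith k c (2 * cm) β μ h.prod
  obtain ⟨tab, htab, htabB⟩ := exists_tab B n0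
  let t : Word → ℕ := fun y => root (6 * k + 7) y.length
  let b : Word → ℕ := fun y => β (5 * y.length + 5)
  let M : Word → ℕ := fun y => μ (5 * y.length + 5)
  let R : Word → ℕ := fun y => b y * t y ^ 2 + t y
  let N : Word → ℕ := fun y => (M y + 1) * t y ^ 2
  let s1 : Word → ℕ := fun y => M y * (2 * t y + 1)
  let s : Word → ℕ := fun y => N y * (b y * (2 * t y + 1) + 2) + R y * (s1 y + 1) + 1
  have hlen : PT fun y : Word => 5 * y.length + 5 :=
    PT.add (PT.mul (PT.const 5) (PT.length PT.id)) (PT.const 5)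
  have ht : PT t := pt_root _ (PT.length PT.id)
  have hb : PT b := h.ptβ.comp hlen
  have hM : PT M := h.ptμ.comp hlen
  have hR : PT R := PT.add (PT.mul hb (PT.pow ht 2)) ht
  have hN : PT N := PT.mul (PT.add hM (PT.const 1)) (PT.pow ht 2)
  have h2t : PT fun y => 2 * t y + 1 := PT.add (PT.mul (PT.const 2) ht) (PT.const 1)
  have hs1 : PT s1 := PT.mul hM h2t
  have hs : PT s := PT.add (PT.add (PT.mul hN (PT.add (PT.mul hb h2t) (PT.const 2)))
    (PT.mul hR (PT.add hs1 (PT.const 1)))) (PT.const 1)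
  have har := fun y : Word => fun hy : n0 ≤ y.length =>
    hn0 y.length hy (t y) (b y) (M y) (R y) (N y) (s1 y) (s y) rfl rfl rfl rfl rfl rfl rfl
  -- the length of the questions for the reduction
  have hinst : ∀ (y : Word) (V : List Word) (D : Word) (j : ℕ), n0 ≤ y.length →
      V.length ≤ R y → (∀ v ∈ V, v.length ≤ m y) →
      (inst y V (R y) D j).length ≤ 5 * y.length + 5 := by
    intro y V D j hy hV hv
    obtain ⟨-, -, -, h4, -, h6, h7, -⟩ := har y hy
    exact (length_inst_le hv hV ((hmle y).trans_lt h7) h6).trans h4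
  have hrow : ∀ (y : Word) (V : List Word) (D : Word), n0 ≤ y.length →
      V.length ≤ R y → (∀ v ∈ V, v.length ≤ m y) → ∀ ρ ∈ rows f y V (N y) (R y) D,
      ρ.1.length + ρ.2.length ≤ b y := by
    intro y V D hy hV hv ρ hρ
    obtain ⟨j, -, rfl⟩ := List.mem_map.1 hρ
    exact (h.len _).trans (h.monβ (hinst y V D j hy hV hv))
  have hpool : ∀ (y : Word) (V : List Word) (D : Word), n0 ≤ y.length →
      V.length ≤ R y → (∀ v ∈ V, v.length ≤ m y) →
      (pool (rows f y V (N y) (R y) D)).length < 2 ^ t y := by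
    intro y V D hy hV hv
    obtain ⟨-, -, -, -, h5, -, -, -⟩ := har y hy
    refine lt_of_le_of_lt ?_ h5
    have h1 := length_pool_le (l := rows f y V (N y) (R y) D) (b := b y) fun ρ hρ => by
      have := hrow y V D hy hV hv ρ hρ
      omega
    rwa [length_rows] at h1
  refine ⟨{ Rel := Rel, m := m, f := f, N := N, R := R, s := s, s1 := s1, n0 := n0, tab := tab },
    ⟨hRel, hm, h.ptf, hN, hR, hs, hs1, htab⟩, ?_⟩
  constructor
  · exact hB
  · exact htabB
  · intro y hy
    exact (har y hy).2.1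
  · intro y hy
    exact exists_not_rep E (har y hy).2.2.1
  · intro y V D ℓ hy hV hVn hℓ hv hD hrep
    have hv' : ∀ v ∈ V, v.length ≤ m y := fun v hv1 => (hv v hv1).trans_le hℓ
    exact fail hD hrep (hrow y V D hy hV.le hv') (har y hy).1 (hpool y V D hy hV.le hv') le_rfl
  · intro y V D ℓ hy hV hVn hℓ hv hD i hi u hu hcu
    have hv' : ∀ v ∈ V, v.length ≤ m y := fun v hv1 => (hv v hv1).trans_le hℓ
    refine pass hA h.iff hVn hv hV hi hu hcu (M := M y) (t := t y) ?_
      (hpool y V D hy hV.le hv') le_rfl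
    intro w hw
    obtain ⟨ρ, hρ, hw'⟩ := List.mem_flatMap.1 hw
    obtain ⟨j, -, rfl⟩ := List.mem_map.1 hρ
    exact (h.den _ w hw').trans (h.monμ (hinst y V D j hy hV.le hv'))
  · intro y π hy hπ
    obtain ⟨-, -, -, -, -, -, -, h8, -⟩ := har y hy
    have h1 := length_w2_le (s y) (N y) (R y) π
    have h2 : π.length ≤ N y * R y := hπ
    have h3 : (w2 (s y, (N y, (R y, π)))).length + 2 ≤
        2 * (s y + N y + R y + 2 * (N y * R y)) + 8 + 2 := by omega
    exact (Nat.pow_le_pow_left h3 _).trans h8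
  · intro y V D i hy hV hv hD
    obtain ⟨h1, -, -, -, -, -, -, -, h9⟩ := har y hy
    have h2 := length_w1_le (f := f) (y := y) (V := V) (N := N y) (R := R y) (s1 := s1 y)
      (i := i) (D := D) (hrow y V D hy hV hv) h1 (hpool y V D hy hV hv)
    exact (Nat.pow_le_pow_left (Nat.add_le_add_right h2 2) _).trans h9

end Pool.Agent.Lib.MP_634427_lc.LD
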