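import Pool.Agent.Lib.MP_634427_lc.LD.MkPT

/-!
# The questions in polynomial time
-/

namespace Pool.Agent.Lib.MP_634427_lc.PT

variable {γ : Type} [Enc γ]

/-- The tree of a value. -/
private lemma encLD {α : Type} [Enc α] {f : γ → α} (hf : PT f) : PT fun c => enc (f c) := by
  have h : PT fun a : α => enc a := ⟨_, .id, fun _ => rfl⟩
  exact h.comp hf

lemma namesLD {R j : γ → ℕ} {D : γ → Word} (hR : PT R) (hj : PT j) (hD : PT D) :
    PT fun c => LD.names (R c) (j c) (D c) :=
  map (f := fun _ (i : ℕ) => LD.bits i)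
    (filter (p := fun c (i : ℕ) => (D c).getD (j c * R c + i) false) (range hR)
      (getLD (add (mul (hj.comp fst) (hR.comp fst)) snd) (hD.comp fst) (const false)))
    (bitsLD snd)

lemma instLD {y : γ → Word} {V : γ → List Word} {R j : γ → ℕ} {D : γ → Word} (hy : PT y)
    (hV : PT V) (hR : PT R) (hD : PT D) (hj : PT j) :
    PT fun c => LD.inst (y c) (V c) (R c) (D c) (j c) :=
  PT.code (encLD (pair hy (pair (mkLD hV) (namesLD hR hj hD))))

lemma candLD {V : γ → List Word} {i : γ → ℕ} (hV : PT V) (hi : PT i) :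
    PT fun c => LD.cand (V c) (i c) :=
  getLD hi (reverse hV) (const [])

private lemma rowsLD {F : Word → Word × List Word} (hF : PT F) {y : γ → Word}
    {V : γ → List Word} {N R : γ → ℕ} {D : γ → Word} (hy : PT y) (hV : PT V) (hN : PT N)
    (hR : PT R) (hD : PT D) : PT fun c => LD.rows F (y c) (V c) (N c) (R c) (D c) :=
  map (f := fun c (j : ℕ) => F (LD.inst (y c) (V c) (R c) (D c) j)) (range hN)
    (hF.comp (instLD (hy.comp fst) (hV.comp fst) (hR.comp fst) (hD.comp fst) snd))

private lemma poolLD {f : γ → List LD.Row} (hf : PT f) : PT fun c => LD.pool (f c) :=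
  flatMap (f := fun _ (ρ : LD.Row) => ρ.2) hf (snd' snd)

private lemma nrowLD {P : γ → List Word} {ρ : γ → LD.Row} (hP : PT P) (hρ : PT ρ) :
    PT fun c => LD.nrow (P c) (ρ c) :=
  pair (fst' hρ) (map (f := fun c (w : Word) => LD.bits (LD.ix w (P c))) (snd' hρ)
    (bitsLD (ixLD snd (hP.comp fst))))

lemma q1LD {F : Word → Word × List Word} (hF : PT F) {y : γ → Word} {V : γ → List Word}
    {N R s1 : γ → ℕ} {D : γ → Word} {i : γ → ℕ} (hy : PT y) (hV : PT V) (hN : PT N) (hR : PT R)
    (hs1 : PT s1) (hD : PT D) (hi : PT i) :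
    PT fun c => LD.q1 F (y c) (V c) (N c) (R c) (s1 c) (D c) (i c) := by
  have hr := rowsLD hF hy hV hN hR hD
  exact pair hs1 (map (f := fun c (j : ℕ) =>
    (LD.nrow (LD.pool (LD.rows F (y c) (V c) (N c) (R c) (D c)))
      ((LD.rows F (y c) (V c) (N c) (R c) (D c)).getD j ([], [])),
      (D c).getD (j * R c + i c) false)) (range hN)
    (pair (nrowLD ((poolLD hr).comp fst) (getLD snd (hr.comp fst) (const ([], []))))
      (getLD (add (mul snd (hR.comp fst)) (hi.comp fst)) (hD.comp fst) (const false))))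

end Pool.Agent.Lib.MP_634427_lc.PT
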