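import Pool.Agent.Lib.MP_634427_lc.LD.RunDefs

/-!
# The first phase
-/

namespace Pool.Agent.Lib.MP_634427_lc.LD

open Pool.Agent.Lib.MP_634427_lc

variable {P : Par} {E : Word × List Bool → Bool} {U : Set Word}

/-- First phase, one step. -/
lemma step_one (hU : Answers E U) {y π α : Word} {L : List Word} {c : ℕ}
    (hπ : π.length < P.N y * P.R y) (hext : Ext P E y π) :
    ∃ b, P.mach.step U (y, (π, (L, (α, c + 1)))) = (y, (π ++ [b], (L, (α, c)))) ∧
      Ext P E y (π ++ [b]) := by
  classical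
  have hask : P.mach.ask (y, (π, (L, (α, c + 1)))) =
      some (w2 (P.s y, (P.N y, (P.R y, π ++ [false])))) := by
    simp only [Par.mach]
    rw [if_neg (Nat.succ_ne_zero c), if_pos hπ]
  have hupd : ∀ b, P.mach.upd (y, (π, (L, (α, c + 1)))) b = (y, (π ++ [!b], (L, (α, c)))) := by
    intro b
    simp only [Par.mach]
    rw [if_pos hπ]
    rfl
  have hstep : P.mach.step U (y, (π, (L, (α, c + 1)))) =
      (y, (π ++ [!(decide (w2 (P.s y, (P.N y, (P.R y, π ++ [false]))) ∈ U))],
        (L, (α, c)))) := by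
    unfold Mach.step
    rw [hask]
    exact hupd _
  refine ⟨_, hstep, ?_⟩
  by_cases hK : w2 (P.s y, (P.N y, (P.R y, π ++ [false]))) ∈ U
  · have h2 := (hU.2 _).1 hK
    have hb : (!(decide (w2 (P.s y, (P.N y, (P.R y, π ++ [false]))) ∈ U))) = false := by
      simp [hK]
    rw [hb]
    obtain ⟨D, h1, h3, h4⟩ := h2
    exact ⟨D, h1, h3, h4⟩
  · have hb : (!(decide (w2 (P.s y, (P.N y, (P.R y, π ++ [false]))) ∈ U))) = true := by
      simp [hK]
    rw [hb]
    have h2 : ¬ K2 E (P.s y, (P.N y, (P.R y, π ++ [false]))) := fun h => hK ((hU.2 _).2 h)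
    obtain ⟨D, h1, h3, h4⟩ := hext
    obtain ⟨t, rfl⟩ := h3
    cases t with
    | nil =>
      rw [List.append_nil] at h1
      omega
    | cons a t =>
      cases a with
      | false =>
        exfalso
        refine h2 ⟨π ++ false :: t, h1, ⟨t, ?_⟩, h4⟩
        simp
      | true =>
        refine ⟨π ++ true :: t, h1, ⟨t, ?_⟩, h4⟩
        simp

/-- First phase. -/
lemma phase_one (hU : Answers E U) {y : Word} {L : List Word} {α : Word} {n c : ℕ} {π : Word}
    (hπ : π.length + n ≤ P.N y * P.R y) (hext : Ext P E y π) :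
    ∃ π', π'.length = π.length + n ∧ Ext P E y π' ∧
      (P.mach.step U)^[n] (y, (π, (L, (α, c + n)))) = (y, (π', (L, (α, c)))) := by
  induction n generalizing π with
  | zero => exact ⟨π, rfl, hext, rfl⟩
  | succ n ih =>
    obtain ⟨b, hb, hb'⟩ := step_one (L := L) (α := α) (c := c + n) hU
      (show π.length < P.N y * P.R y by omega) hext
    have hlen : (π ++ [b]).length = π.length + 1 := by simp
    obtain ⟨π', h1, h2, h3⟩ := ih (π := π ++ [b]) (by rw [hlen]; omega) hb'
    refine ⟨π', by rw [h1, hlen]; omega, h2, ?_⟩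
    rw [Function.iterate_succ_apply, show c + (n + 1) = c + n + 1 from rfl, hb]
    exact h3

end Pool.Agent.Lib.MP_634427_lc.LD
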