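import Pool.Agent.Lib.MP_634427_lc.LD.RunDefs

/-!
# The second phase, a block
-/

namespace Pool.Agent.Lib.MP_634427_lc.LD

open Pool.Agent.Lib.MP_634427_lc

variable {P : Par} {E : Word × List Bool → Bool} {U : Set Word}

private lemma ans_length (P : Par) (E : Word × List Bool → Bool) (y D : Word) (V : List Word)
    (n : ℕ) : (ans P E y D V n).length = n := by
  simp [ans]

open Classical in
private lemma ans_succ (P : Par) (E : Word × List Bool → Bool) (y D : Word) (V : List Word)
    (n : ℕ) : ans P E y D V (n + 1) = ans P E y D V n ++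
      [decide (K1 E (q1 P.f y V (P.N y) (P.R y) (P.s1 y) D n))] := by
  unfold ans
  rw [List.range_succ, List.map_append]
  rfl

open Classical in
private lemma step_two (hU : Answers E U) {y D : Word} {L : List Word} {n c : ℕ}
    (hD : D.length = P.N y * P.R y) :
    P.mach.step U (y, (D, (L, (ans P E y D (L.take (P.R y)) n, c + 1)))) =
      P.mach.upd (y, (D, (L, (ans P E y D (L.take (P.R y)) n, c + 1))))
        (decide (K1 E (q1 P.f y (L.take (P.R y)) (P.N y) (P.R y) (P.s1 y) D n))) := by
  have hask : P.mach.ask (y, (D, (L, (ans P E y D (L.take (P.R y)) n, c + 1)))) =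
      some (w1 (q1 P.f y (L.take (P.R y)) (P.N y) (P.R y) (P.s1 y) D n)) := by
    simp only [Par.mach]
    rw [if_neg (Nat.succ_ne_zero c), if_neg (by omega), ans_length]
  unfold Mach.step
  rw [hask]
  have h := hU.1 (q1 P.f y (L.take (P.R y)) (P.N y) (P.R y) (P.s1 y) D n)
  show P.mach.upd _ (decide _) = _
  congr 1
  exact decide_eq_decide.2 h

/-- Second phase, the beginning of a block. -/
lemma block_beg (hU : Answers E U) {y D : Word} {L : List Word} {n c : ℕ}
    (hD : D.length = P.N y * P.R y) (hn : n < P.R y) :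
    (P.mach.step U)^[n] (y, (D, (L, ([], c + n)))) =
      (y, (D, (L, (ans P E y D (L.take (P.R y)) n, c)))) := by
  induction n generalizing c with
  | zero => simp [ans]
  | succ n ih =>
    rw [Function.iterate_succ_apply', show c + (n + 1) = c + 1 + n by omega, ih (by omega),
      step_two hU hD]
    simp only [Par.mach]
    rw [if_neg (by omega), ans_length, if_pos hn, ans_succ]
    simp

/-- Second phase, a block. -/
lemma block (hU : Answers E U) {y D : Word} {L : List Word} {c : ℕ}
    (hD : D.length = P.N y * P.R y) (hR : 1 ≤ P.R y) :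
    (P.mach.step U)^[P.R y] (y, (D, (L, ([], c + P.R y)))) =
      (y, (D, (nxt (P.R y) (P.m y) L (ans P E y D (L.take (P.R y)) (P.R y)), ([], c)))) := by
  obtain ⟨r, hr⟩ : ∃ r, P.R y = r + 1 := ⟨P.R y - 1, by omega⟩
  have h1 : (P.mach.step U)^[r] (y, (D, (L, ([], c + 1 + r)))) =
      (y, (D, (L, (ans P E y D (L.take (P.R y)) r, c + 1)))) :=
    block_beg hU hD (by omega)
  have h2 : (P.mach.step U)^[P.R y] (y, (D, (L, ([], c + P.R y)))) =
      P.mach.step U ((P.mach.step U)^[r] (y, (D, (L, ([], c + 1 + r))))) := by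
    rw [← Function.iterate_succ_apply' (P.mach.step U) r, hr,
      show c + (r + 1) = c + 1 + r by omega]
  have h3 : ans P E y D (L.take (P.R y)) (P.R y) =
      ans P E y D (L.take (P.R y)) (r + 1) := by rw [← hr]
  rw [h2, h1, step_two hU hD, h3, ans_succ]
  simp only [Par.mach]
  rw [if_neg (by omega), ans_length, if_neg (by omega)]
  simp

end Pool.Agent.Lib.MP_634427_lc.LD
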