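import Pool.Agent.Lib.MP_634427_lc.LD.RunDefs
import Pool.Agent.Lib.MP_634427_lc.LD.Inv

/-!
# The invariant is kept by a block
-/

namespace Pool.Agent.Lib.MP_634427_lc.LD

open Pool.Agent.Lib.MP_634427_lc

variable {P : Par} {E : Word × List Bool → Bool} {B : Set Word} {K : ℕ}

private lemma ans_length (P : Par) (E : Word × List Bool → Bool) (y D : Word) (V : List Word)
    (n : ℕ) : (ans P E y D V n).length = n := by
  simp [ans]

open Classical in
private lemma ans_getD (P : Par) (E : Word × List Bool → Bool) (y D : Word) (V : List Word)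
    {n i : ℕ} (hi : i < n) : (ans P E y D V n).getD i true =
      decide (K1 E (q1 P.f y V (P.N y) (P.R y) (P.s1 y) D i)) := by
  have h : i < (ans P E y D V n).length := by
    rw [ans_length]
    exact hi
  rw [List.getD_eq_getElem _ _ h]
  simp only [ans, List.getElem_map, List.getElem_range]

/-- The invariant is kept by a block. -/
lemma inv_block (hP : P.Good E B K) {y D : Word} {L : List Word} {rem : ℕ}
    (hy : P.n0 ≤ y.length) (hD : D.length = P.N y * P.R y)
    (hrep : ¬ Rep E (P.s y) (P.N y) (P.R y) D)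
    (h : Inv (P.R y) (P.m y) (First P.Rel P.m y) (rem + 1) L) :
    Inv (P.R y) (P.m y) (First P.Rel P.m y) rem
      (nxt (P.R y) (P.m y) L (ans P E y D (L.take (P.R y)) (P.R y))) := by
  classical
  have hR := hP.one y hy
  obtain ⟨ℓ, hℓm, hlen, hnd, h2R, hrem, hpre⟩ := id h
  have hV1 : ∀ v ∈ L.take (P.R y), v.length = ℓ := fun v hv => hlen v (List.mem_of_mem_take hv)
  have hV2 : (L.take (P.R y)).Nodup := hnd.sublist (List.take_sublist _ _)
  have hV3 : P.R y ≤ L.length → (L.take (P.R y)).length = P.R y := fun hL => by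
    rw [List.length_take]
    exact min_eq_left hL
  refine inv_step hR (fun u hu => hu.1) h (ans_length _ _ _ _ _ _) ?_ ?_
  · intro hL
    obtain ⟨i, hi, hK⟩ := hP.fail y (L.take (P.R y)) D ℓ hy (hV3 hL) hV2 hℓm hV1 hD hrep
    refine ⟨i, hi, ?_⟩
    rw [ans_getD _ _ _ _ _ hi]
    exact decide_eq_false hK
  · intro hL i hi hval u hu hc
    rw [ans_getD _ _ _ _ _ hi] at hval
    exact of_decide_eq_false hval
      (hP.pass y (L.take (P.R y)) D ℓ hy (hV3 hL) hV2 hℓm hV1 hD i hi u hu hc)

end Pool.Agent.Lib.MP_634427_lc.LD
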