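import Pool.Agent.Lib.MP_634427_lc.LD.RunA
import Pool.Agent.Lib.MP_634427_lc.LD.RunB
import Pool.Agent.Lib.MP_634427_lc.LD.RunC

/-!
# The whole run
-/

namespace Pool.Agent.Lib.MP_634427_lc.LD

open Pool.Agent.Lib.MP_634427_lc

variable {P : Par} {E : Word × List Bool → Bool} {B U : Set Word} {K : ℕ}

/-- The blocks of the second phase. -/
lemma runD_blocks (hP : P.Good E B K) (hU : Answers E U) {y D : Word} (hy : P.n0 ≤ y.length)
    (hD : D.length = P.N y * P.R y) (hrep : ¬ Rep E (P.s y) (P.N y) (P.R y) D)
    {k : ℕ} (hk : k ≤ P.m y * P.R y + P.R y) :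
    ∃ L, Inv (P.R y) (P.m y) (First P.Rel P.m y) (P.m y * P.R y + P.R y - k) L ∧
      (P.mach.step U)^[k * P.R y]
        (y, (D, ([[]], ([], (P.m y * P.R y + P.R y) * P.R y)))) =
        (y, (D, (L, ([], (P.m y * P.R y + P.R y - k) * P.R y)))) := by
  have hR := hP.one y hy
  induction k with
  | zero =>
    refine ⟨[[]], ?_, ?_⟩
    · rw [Nat.sub_zero]
      exact inv_init hR
    · rw [Nat.zero_mul, Nat.sub_zero]
      rfl
  | succ k ih =>
    obtain ⟨L, h1, h2⟩ := ih (by omega)
    have hk' : P.m y * P.R y + P.R y - k = (P.m y * P.R y + P.R y - (k + 1)) + 1 := by omega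
    rw [hk'] at h1 h2
    refine ⟨_, inv_block hP hy hD hrep h1, ?_⟩
    rw [Nat.succ_mul, Nat.add_comm, Function.iterate_add_apply, h2, Nat.succ_mul]
    exact block hU hD hR

/-- The whole run. -/
lemma run (hP : P.Good E B K) (hU : Answers E U) {y : Word} (hy : P.n0 ≤ y.length) :
    (∀ i ≤ P.T y, Reach P y (P.T y - i) ((P.mach.step U)^[i] (P.mach.ini y))) ∧
    ∃ L, (∀ u, First P.Rel P.m y u → u ∈ L) ∧ ∃ D α,
      (P.mach.step U)^[P.T y] (P.mach.ini y) = (y, (D, (L, (α, 0)))) := by
  have hR := hP.one y hy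
  have hini : P.mach.ini y = (y, ([], ([[]], ([], P.T y)))) := by
    simp only [Par.mach]
    rw [if_pos hy]
  have hT : P.T y = P.N y * P.R y + (P.m y * P.R y + P.R y) * P.R y := by
    unfold Par.T
    ring
  have hext : Ext P E y [] := by
    obtain ⟨D, h1, h2⟩ := hP.rep y hy
    exact ⟨D, h1, List.nil_prefix, h2⟩
  -- the first phase
  have ph1 : ∀ i ≤ P.N y * P.R y, ∃ π' : Word, π'.length = i ∧ Ext P E y π' ∧
      (P.mach.step U)^[i] (P.mach.ini y) = (y, (π', ([[]], ([], P.T y - i)))) := by
    intro i hi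
    obtain ⟨π', h1, h2, h3⟩ := phase_one (L := [[]]) (α := []) (n := i) (c := P.T y - i)
      (π := []) hU (by simpa using hi) hext
    refine ⟨π', by simpa using h1, h2, ?_⟩
    rw [hini]
    rw [show P.T y - i + i = P.T y by omega] at h3
    exact h3
  obtain ⟨D, hD, ⟨D', hD', hpre, hrep'⟩, hend⟩ := ph1 _ le_rfl
  obtain rfl : D = D' := List.IsPrefix.eq_of_length hpre (by rw [hD, hD'])
  rw [show P.T y - P.N y * P.R y = (P.m y * P.R y + P.R y) * P.R y by omega] at hend
  -- the second phase
  refine ⟨fun i hi => ?_, ?_⟩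
  · rcases Nat.le_total i (P.N y * P.R y) with h | h
    · obtain ⟨π', h1, -, h3⟩ := ph1 i h
      rw [h3]
      refine ⟨rfl, ?_, ?_, ?_, ?_, rfl⟩
      · show π'.length ≤ _
        omega
      · show ([[]] : List Word).length ≤ _
        rw [List.length_singleton]
        omega
      · intro v hv
        have hv' : v = [] := by simpa using hv
        rw [hv']
        exact Nat.zero_le _
      · exact Nat.zero_le _
    · obtain ⟨j, rfl⟩ := Nat.exists_eq_add_of_le h
      have hj : j ≤ (P.m y * P.R y + P.R y) * P.R y := by omega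
      have hn : j % P.R y < P.R y := Nat.mod_lt _ (by omega)
      have hkn : j = (j / P.R y) * P.R y + j % P.R y := by
        rw [Nat.mul_comm]
        exact (Nat.div_add_mod _ _).symm
      have hk : j / P.R y ≤ P.m y * P.R y + P.R y := by
        rw [← Nat.mul_div_cancel (P.m y * P.R y + P.R y) (show 0 < P.R y by omega)]
        exact Nat.div_le_div_right hj
      obtain ⟨L, h1, h2⟩ := runD_blocks hP hU hy hD hrep' hk
      set k := j / P.R y with hkdef
      set n := j % P.R y with hndef
      have hsum : (P.m y * P.R y + P.R y - k) * P.R y =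
          ((P.m y * P.R y + P.R y - k) * P.R y - n) + n := by
        have : k * P.R y + (P.m y * P.R y + P.R y - k) * P.R y =
            (P.m y * P.R y + P.R y) * P.R y := by
          rw [← Nat.add_mul]
          congr 1
          omega
        omega
      have hit : (P.mach.step U)^[P.N y * P.R y + j] (P.mach.ini y) =
          (y, (D, (L, (ans P E y D (L.take (P.R y)) n,
            (P.m y * P.R y + P.R y - k) * P.R y - n)))) := by
        rw [Nat.add_comm, Function.iterate_add_apply, hend, hkn, Nat.add_comm,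
          Function.iterate_add_apply, h2, hsum, Nat.add_sub_cancel]
        exact block_beg hU hD hn
      rw [hit]
      obtain ⟨ℓ, hℓ, hlen, -, hL2, -⟩ := h1
      refine ⟨rfl, ?_, ?_, ?_, ?_, ?_⟩
      · exact hD.le
      · exact hL2
      · intro v hv
        rw [hlen v hv]
        exact hℓ
      · show (ans P E y D (L.take (P.R y)) n).length ≤ _
        unfold ans
        rw [List.length_map, List.length_range]
        exact hn.le
      · show (P.m y * P.R y + P.R y - k) * P.R y - n = _
        have : k * P.R y + (P.m y * P.R y + P.R y - k) * P.R y =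
            (P.m y * P.R y + P.R y) * P.R y := by
          rw [← Nat.add_mul]
          congr 1
          omega
        omega
  · obtain ⟨L, h1, h2⟩ := runD_blocks hP hU hy hD hrep' le_rfl
    rw [Nat.sub_self] at h1 h2
    refine ⟨L, inv_end hR (fun u hu => hu.1) h1, D, [], ?_⟩
    rw [hT, Nat.add_comm, Function.iterate_add_apply, hend, h2, Nat.zero_mul]

end Pool.Agent.Lib.MP_634427_lc.LD
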